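import Pool.Agent.Lib.H18Q.MP
import Pool.Agent.Lib.H18R.Defs

/-!
# Project H18R (MP_443e5f_co): the fixed exceptional set

Copies of proofs of `H18P` and `H18Q` (`OM`, `P3`, `GB`, `GC1`, `GD`), in order to have fewer imports.
-/

open Finset Pool.Agent.Lib.H68T Pool.Agent.Lib.H18E Pool.Agent.Lib.GoldbachGraph Pool.Agent.Lib.H18P

namespace Pool.Agent.Lib.H18R

/-- The conclusion of `H18Q.main_pow`. -/
def MainPow (δ0 c0 : ℝ) : Prop :=
  ∀ a b : ℝ, 0 < a → a < b → b < δ0 → ∃ n0 : ℕ, ∀ n : ℕ, n0 ≤ n → ∃ B : Finset ℕ, B ⊆ Icc 1 n ∧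
    (B.card : ℝ) ≤ (n : ℝ) ^ (1 - a) / 2 ∧ ∃ r1 : ℕ, (r1 = 0 ∨ 7 ≤ r1) ∧
    ∀ x ∈ Icc 1 n, x ∉ B → B.card < ohdeg n x ∧ (n : ℝ) ^ (1 - b) ≤ ohdeg n x ∧
      (¬ r1 ∣ x → c0 * SE x * n / (Real.log n) ^ 2 ≤ ohdeg n x)

/-- the powers of two -/
theorem clog_bounds (x : ℕ) (hx : 3 ≤ x) : x ≤ 2 ^ Nat.clog 2 x ∧ 2 ^ Nat.clog 2 x < 2 * x ∧
    (Nat.clog 2 x : ℝ) + 1 ≤ 4 * Real.log x := by
  have h1 : x ≤ 2 ^ Nat.clog 2 x := Nat.le_pow_clog (by norm_num) x
  have h2 : 2 ^ Nat.clog 2 x < 2 * x := by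
    have h3 := Nat.pow_pred_clog_lt_self (b := 2) (by norm_num) (x := x) (by omega)
    have h4 : 0 < Nat.clog 2 x := Nat.clog_pos (by norm_num) (by omega)
    obtain ⟨k, hk⟩ : ∃ k, Nat.clog 2 x = k + 1 := ⟨Nat.clog 2 x - 1, by omega⟩
    rw [hk] at h3 ⊢
    simp only [Nat.pred_succ] at h3
    rw [pow_succ]
    omega
  refine ⟨h1, h2, ?_⟩
  have hxR : (3 : ℝ) ≤ x := by exact_mod_cast hx
  have h5 : ((2 : ℝ) ^ Nat.clog 2 x) < 2 * x := by exact_mod_cast h2
  have h6 : (Nat.clog 2 x : ℝ) * Real.log 2 ≤ Real.log 2 + Real.log x := by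
    rw [← Real.log_pow, ← Real.log_mul (by norm_num) (by linarith)]
    exact Real.log_le_log (by positivity) h5.le
  have h7 := Real.log_two_gt_d9
  have h8 : 1 ≤ Real.log x := by
    rw [Real.le_log_iff_exp_le (by linarith)]
    have := Real.exp_one_lt_d9
    linarith
  nlinarith

theorem reps_le (x : ℕ) :
    reps (2 * x) ≤ 2 * ((Icc 1 (x - 1)).filter (fun Y => hadj x Y)).card + 3 := by
  classical
  set D := (Icc 1 (x - 1)).filter (fun Y => hadj x Y) with hD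
  have hsub : (range (2 * x + 1)).filter (fun p => p.Prime ∧ (2 * x - p).Prime) ⊆
      (D.image (fun Y => x - Y) ∪ D.image (fun Y => x + Y)) ∪ {x, 2, 2 * x - 2} := by
    intro p hp
    rw [mem_filter, mem_range] at hp
    obtain ⟨hp1, hp2, hp3⟩ := hp
    have hp2' := hp2.two_le
    have hp3' := hp3.two_le
    rw [mem_union, mem_union, mem_image, mem_image, mem_insert, mem_insert, mem_singleton]
    by_cases h1 : p = x
    · right; left; exact h1
    by_cases h2 : p = 2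
    · right; right; left; exact h2
    by_cases h3 : 2 * x - p = 2
    · right; right; right; omega
    have ho : Odd p := hp2.odd_of_ne_two h2
    have ho' : Odd (2 * x - p) := hp3.odd_of_ne_two h3
    left
    rcases lt_or_gt_of_ne h1 with h | h
    · left
      refine ⟨x - p, ?_, by omega⟩
      rw [hD, mem_filter, mem_Icc]
      have e1 : x + (x - p) = 2 * x - p := by omega
      have e2 : Nat.dist x (x - p) = p := by unfold Nat.dist; omega
      refine ⟨⟨by omega, by omega⟩, ?_, ?_, ?_, ?_⟩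
      · rw [e1]; exact hp3
      · rw [e1]; exact ho'
      · rw [e2]; exact hp2
      · rw [e2]; exact ho
    · right
      refine ⟨p - x, ?_, by omega⟩
      rw [hD, mem_filter, mem_Icc]
      have e1 : x + (p - x) = p := by omega
      have e2 : Nat.dist x (p - x) = 2 * x - p := by unfold Nat.dist; omega
      refine ⟨⟨by omega, by omega⟩, ?_, ?_, ?_, ?_⟩
      · rw [e1]; exact hp2
      · rw [e1]; exact ho
      · rw [e2]; exact hp3
      · rw [e2]; exact ho'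
  have h1 := card_le_card hsub
  have h2 := card_union_le (D.image (fun Y => x - Y) ∪ D.image (fun Y => x + Y)) {x, 2, 2 * x - 2}
  have h3 := card_union_le (D.image (fun Y => x - Y)) (D.image (fun Y => x + Y))
  have h4 : (D.image (fun Y => x - Y)).card ≤ D.card := card_image_le
  have h5 : (D.image (fun Y => x + Y)).card ≤ D.card := card_image_le
  have h6 : ({x, 2, 2 * x - 2} : Finset ℕ).card ≤ 3 := card_le_three
  unfold reps
  omega

theorem le_reps (x : ℕ) : ((Icc 1 (x - 1)).filter (fun Y => hadj x Y)).card ≤ reps (2 * x) := by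
  classical
  unfold reps
  refine card_le_card_of_injOn (fun Y => x - Y) ?_ ?_
  · intro Y hY
    rw [mem_coe, mem_filter, mem_Icc] at hY
    obtain ⟨⟨h1, h2⟩, h3, h4, h5, h6⟩ := hY
    have e1 : Nat.dist x Y = x - Y := by unfold Nat.dist; omega
    rw [e1] at h5
    have e2 : 2 * x - (x - Y) = x + Y := by omega
    have e3 : x - Y ∈ (range (2 * x + 1)).filter (fun p => p.Prime ∧ (2 * x - p).Prime) := by
      rw [mem_filter, mem_range, e2]
      exact ⟨by omega, h5, h3⟩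
    exact e3
  · intro Y hY Y' hY' h
    rw [mem_coe, mem_filter, mem_Icc] at hY hY'
    simp only at h
    omega

/-- Thresholds. `m ^ (1 - b) = m ^ (1 - c) · m ^ (c - b)`, and `m ^ (c - b) ≥ 8`,
`m ^ (1 - c) ≥ 8` for large `m`. -/
theorem thr_pow (b c : ℝ) (hb0 : 0 < b) (hbc : b < c) (hc : c < 1) : ∃ n0 : ℕ, 1 ≤ n0 ∧ ∀ m : ℕ, n0 ≤ m →
    4 + (m : ℝ) ^ (1 - c) / 2 < (m : ℝ) ^ (1 - b) ∧
    3 + (m : ℝ) ^ (1 - c) < ((2 * m : ℕ) : ℝ) ^ (1 - b) ∧
    ((2 * m : ℕ) : ℝ) ^ (1 - c) ≤ (m : ℝ) ^ (1 - b) := by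
  have h1 := (tendsto_rpow_atTop (show 0 < c - b by linarith)).eventually_ge_atTop 8
  have h2 := (tendsto_rpow_atTop (show 0 < 1 - c by linarith)).eventually_ge_atTop 8
  obtain ⟨n0, hn0⟩ := Filter.eventually_atTop.1
    (tendsto_natCast_atTop_atTop.eventually (h1.and h2))
  refine ⟨max n0 1, le_max_right _ _, fun m hm => ?_⟩
  obtain ⟨e1, e2⟩ := hn0 m (by omega)
  have hm1 : (1 : ℝ) ≤ m := by exact_mod_cast (by omega : 1 ≤ m)
  have hm0 : (0 : ℝ) < m := by linarith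
  have k1 : (m : ℝ) ^ (1 - b) = (m : ℝ) ^ (1 - c) * (m : ℝ) ^ (c - b) := by
    rw [← Real.rpow_add hm0]
    congr 1
    ring
  have k2 : 8 * (m : ℝ) ^ (1 - c) ≤ (m : ℝ) ^ (1 - b) := by
    rw [k1]
    nlinarith
  have h2m : ((2 * m : ℕ) : ℝ) = 2 * m := by push_cast; ring
  rw [h2m]
  have k3 : (m : ℝ) ^ (1 - b) ≤ (2 * m) ^ (1 - b) :=
    Real.rpow_le_rpow hm0.le (by linarith) (by linarith)
  refine ⟨by linarith, by linarith, ?_⟩
  rw [Real.mul_rpow (by norm_num) hm0.le]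
  have k4 : (2 : ℝ) ^ (1 - c) ≤ 2 := by
    calc (2 : ℝ) ^ (1 - c) ≤ 2 ^ (1 : ℝ) :=
          Real.rpow_le_rpow_of_exponent_le (by norm_num) (by linarith)
      _ = 2 := Real.rpow_one _
  have k5 : (2 : ℝ) ^ (1 - c) * (m : ℝ) ^ (1 - c) ≤ 2 * (m : ℝ) ^ (1 - c) :=
    mul_le_mul_of_nonneg_right k4 (by linarith)
  linarith

/-- **A fixed thin set of halved vertices**, outside of which the degrees at the own scale are large. -/
theorem fixed_pow (δ0 c0 : ℝ) (hM : MainPow δ0 c0) (hδ : δ0 < 1 / 2) (a b : ℝ) (ha : 0 < a) (hab : a < b)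
    (hb : b < δ0) (N : ℕ) : ∃ (F : Set ℕ) (n0 : ℕ),
    (∀ x : ℕ, n0 ≤ x → ((F ∩ Set.Icc 0 x).ncard : ℝ) ≤ (x : ℝ) ^ (1 - a)) ∧
    ∀ x : ℕ, x ∉ F → N ≤ x ∧ (x : ℝ) ^ (1 - b) ≤
      (((Icc 1 (x - 1)).filter (fun Y => hadj x Y)).card : ℝ) := by
  classical
  set a' := a + (b - a) / 3 with ha'
  set b' := a + 2 * (b - a) / 3 with hb'
  have h1 : a < a' := by rw [ha']; linarith
  have h2 : a' < b' := by rw [ha', hb']; linarith
  have h3 : b' < b := by rw [hb']; linarith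
  obtain ⟨n1, hn1⟩ := hM a' b' (by linarith) h2 (by linarith)
  choose! B hB1 hB2 r1 hr1 hB3 using hn1
  have hev : ∀ᶠ y : ℝ in Filter.atTop, 8 * Real.log y ≤ y ^ (a' - a) / 2 ∧ 3 ≤ y := by
    have k1 := (isLittleO_log_rpow_atTop (show 0 < a' - a by linarith)).def
      (show (0 : ℝ) < 1 / 16 by norm_num)
    filter_upwards [k1, Filter.eventually_ge_atTop (3 : ℝ)] with y k1 k2
    have hL : 0 ≤ Real.log y := Real.log_nonneg (by linarith)
    rw [Real.norm_of_nonneg hL, Real.norm_of_nonneg (by positivity)] at k1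
    exact ⟨by linarith, k2⟩
  obtain ⟨n2, hn2⟩ := Filter.eventually_atTop.1 (tendsto_natCast_atTop_atTop.eventually hev)
  set N1 := max (max n1 n2) (max N 3) with hN1
  -- the second threshold
  have hev2 : ∀ᶠ y : ℝ in Filter.atTop, (2 * N1 : ℝ) ≤ y ^ (1 - a) :=
    (tendsto_rpow_atTop (show 0 < 1 - a by linarith)).eventually_ge_atTop _
  obtain ⟨n3, hn3⟩ := Filter.eventually_atTop.1 (tendsto_natCast_atTop_atTop.eventually hev2)
  refine ⟨{x | x < N1 ∨ x ∈ B (2 ^ Nat.clog 2 x)}, max N1 n3, fun x hx => ?_, fun x hx => ?_⟩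
  · -- counting
    have hxN : N1 ≤ x := by omega
    have hx3 : 3 ≤ x := by omega
    obtain ⟨k1, k2, k3⟩ := clog_bounds x hx3
    obtain ⟨e1, e2⟩ := hn2 x (by omega)
    have e5 := hn3 x (by omega)
    have hxR : (0 : ℝ) < x := by exact_mod_cast (by omega : 0 < x)
    set L := Real.log x with hL
    set J := Nat.clog 2 x with hJ
    set I := (range (J + 1)).filter (fun j => N1 ≤ 2 ^ j) with hI
    have hsub : {x | x < N1 ∨ x ∈ B (2 ^ Nat.clog 2 x)} ∩ Set.Icc 0 x ⊆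
        ((range N1 ∪ I.biUnion (fun j => B (2 ^ j)) : Finset ℕ) : Set ℕ) := by
      rintro y ⟨hy, hyx⟩
      rw [mem_coe, mem_union, mem_range, mem_biUnion]
      by_cases hyN : y < N1
      · exact Or.inl hyN
      · right
        have hy2 : y ∈ B (2 ^ Nat.clog 2 y) := hy.resolve_left hyN
        refine ⟨Nat.clog 2 y, ?_, hy2⟩
        rw [hI, mem_filter, mem_range]
        refine ⟨Nat.lt_succ_of_le (Nat.clog_mono_right 2 hyx.2), ?_⟩
        exact (not_lt.1 hyN).trans (Nat.le_pow_clog (by norm_num) y)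
    have hc1 : ({x | x < N1 ∨ x ∈ B (2 ^ Nat.clog 2 x)} ∩ Set.Icc 0 x).ncard ≤
        N1 + ∑ j ∈ I, (B (2 ^ j)).card := by
      refine (Set.ncard_le_ncard hsub (finite_toSet _)).trans ?_
      rw [Set.ncard_coe_finset]
      refine (card_union_le _ _).trans ?_
      rw [card_range]
      exact Nat.add_le_add_left card_biUnion_le _
    have hBj : ∀ j ∈ I, ((B (2 ^ j)).card : ℝ) ≤ (x : ℝ) ^ (1 - a') := by
      intro j hj
      rw [hI, mem_filter, mem_range] at hj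
      have hj1 : n1 ≤ 2 ^ j := by omega
      have hjJ : 2 ^ j ≤ 2 ^ J := Nat.pow_le_pow_right (by norm_num) (by omega)
      have h4 := hB2 (2 ^ j) hj1
      have h6 : ((2 ^ j : ℕ) : ℝ) ≤ 2 * x := by
        have : 2 ^ j ≤ 2 * x := hjJ.trans k2.le
        exact_mod_cast this
      have h7 : ((2 ^ j : ℕ) : ℝ) ^ (1 - a') ≤ (2 * x) ^ (1 - a') :=
        Real.rpow_le_rpow (Nat.cast_nonneg _) h6 (by linarith)
      have h8 : (2 * (x : ℝ)) ^ (1 - a') ≤ 2 * (x : ℝ) ^ (1 - a') := by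
        rw [Real.mul_rpow (by norm_num) hxR.le]
        apply mul_le_mul_of_nonneg_right _ (Real.rpow_nonneg hxR.le _)
        calc (2 : ℝ) ^ (1 - a') ≤ 2 ^ (1 : ℝ) :=
              Real.rpow_le_rpow_of_exponent_le (by norm_num) (by linarith)
          _ = 2 := Real.rpow_one _
      linarith
    have hIc : (I.card : ℝ) ≤ 4 * L := by
      refine le_trans ?_ k3
      have : I.card ≤ J + 1 := (card_filter_le _ _).trans (by rw [card_range])
      exact_mod_cast this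
    have hsum : (∑ j ∈ I, ((B (2 ^ j)).card : ℝ)) ≤ 4 * L * (x : ℝ) ^ (1 - a') := by
      refine (sum_le_sum hBj).trans ?_
      rw [sum_const, nsmul_eq_mul]
      exact mul_le_mul_of_nonneg_right hIc (by positivity)
    have hc2 : (({x | x < N1 ∨ x ∈ B (2 ^ Nat.clog 2 x)} ∩ Set.Icc 0 x).ncard : ℝ) ≤
        N1 + ∑ j ∈ I, ((B (2 ^ j)).card : ℝ) := by exact_mod_cast hc1
    -- the second part
    have hp2 : 4 * L * (x : ℝ) ^ (1 - a') ≤ (x : ℝ) ^ (1 - a) / 2 := by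
      have h4 : (x : ℝ) ^ (1 - a) = (x : ℝ) ^ (1 - a') * (x : ℝ) ^ (a' - a) := by
        rw [← Real.rpow_add hxR]
        congr 1
        ring
      have h5 : 0 ≤ (x : ℝ) ^ (1 - a') := Real.rpow_nonneg hxR.le _
      have h6 : (0 : ℝ) ≤ (x : ℝ) ^ (a' - a) := Real.rpow_nonneg hxR.le _
      rw [h4]
      have h7 : 4 * L ≤ (x : ℝ) ^ (a' - a) / 2 := by linarith
      calc 4 * L * (x : ℝ) ^ (1 - a') ≤ ((x : ℝ) ^ (a' - a) / 2) * (x : ℝ) ^ (1 - a') :=
            mul_le_mul_of_nonneg_right h7 h5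
        _ = (x : ℝ) ^ (1 - a') * (x : ℝ) ^ (a' - a) / 2 := by ring
    linarith
  · -- degrees
    simp only [Set.mem_ofPred_eq, not_or, not_lt] at hx
    obtain ⟨hxN, hxB⟩ := hx
    have hx3 : 3 ≤ x := by omega
    obtain ⟨k1, k2, k3⟩ := clog_bounds x hx3
    have hxR : (0 : ℝ) < x := by exact_mod_cast (by omega : 0 < x)
    set n := 2 ^ Nat.clog 2 x with hn
    refine ⟨by omega, ?_⟩
    have h4 := (hB3 n (by omega) x (mem_Icc.2 ⟨by omega, k1⟩) hxB).2.1
    have h5 : ohdeg n x ≤ ((Icc 1 (x - 1)).filter (fun Y => hadj x Y)).card := by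
      unfold ohdeg
      apply card_le_card
      intro Y hY
      rw [mem_filter, mem_Icc] at hY ⊢
      have := hY.2.2 k2
      exact ⟨⟨hY.1.1, by omega⟩, hY.2.1⟩
    have h6 : (ohdeg n x : ℝ) ≤ (((Icc 1 (x - 1)).filter (fun Y => hadj x Y)).card : ℝ) := by
      exact_mod_cast h5
    refine le_trans ?_ (h4.trans h6)
    have h7 : (x : ℝ) ≤ n := by exact_mod_cast k1
    have h8 : (1 : ℝ) ≤ x := by
      have : 1 ≤ x := by omega
      exact_mod_cast this
    calc (x : ℝ) ^ (1 - b) ≤ (x : ℝ) ^ (1 - b') := Real.rpow_le_rpow_of_exponent_le h8 (by linarith)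
      _ ≤ (n : ℝ) ^ (1 - b') := Real.rpow_le_rpow hxR.le h7 (by linarith)

/-- The fixed exceptional set. -/
theorem fixed_set_pow (δ0 c0 : ℝ) (hM : MainPow δ0 c0) (hδ : δ0 < 1 / 2) (a b : ℝ) (ha : 0 < a)
    (hab : a < b) (hb : b < δ0) (N : ℕ) :
    ∃ (E : Set ℕ) (x0 : ℕ),
      (∀ x : ℕ, x0 ≤ x → ((E ∩ Set.Icc 0 x).ncard : ℝ) ≤ (x : ℝ) ^ (1 - a)) ∧
      ∀ u : ℕ, Even u → u ∉ E → N ≤ u ∧ (u : ℝ) ^ (1 - b) ≤ reps u := by
  classical
  obtain ⟨n1, hn11, hn1⟩ := thr_pow ((a + b) / 2) b (by linarith) (by linarith) (by linarith)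
  obtain ⟨F, x0, hF1, hF2⟩ := fixed_pow δ0 c0 hM hδ a ((a + b) / 2) ha (by linarith) (by linarith) (max N n1)
  refine ⟨{u | Even u ∧ u / 2 ∈ F}, x0, fun x hx => ?_, fun u hu huE => ?_⟩
  · refine le_trans ?_ (hF1 x hx)
    have : ({u | Even u ∧ u / 2 ∈ F} ∩ Set.Icc 0 x).ncard ≤ (F ∩ Set.Icc 0 x).ncard := by
      apply Set.ncard_le_ncard_of_injOn (fun u => u / 2)
      · rintro u ⟨⟨-, h2⟩, h3, h4⟩
        exact ⟨h2, Nat.zero_le _, (Nat.div_le_self _ _).trans h4⟩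
      · rintro u ⟨⟨⟨k, hk⟩, -⟩, -⟩ v ⟨⟨⟨l, hl⟩, -⟩, -⟩ huv
        simp only at huv
        omega
    exact_mod_cast this
  · obtain ⟨k, hk⟩ := hu
    have hux : u = 2 * k := by omega
    subst hux
    have hkF : k ∉ F := fun h => huE ⟨even_two_mul k, by rwa [Nat.mul_div_cancel_left _ two_pos]⟩
    obtain ⟨h1, h2⟩ := hF2 k hkF
    obtain ⟨-, -, t3⟩ := hn1 k (by omega)
    refine ⟨by omega, ?_⟩
    have h3 : (((Icc 1 (k - 1)).filter (fun Y => hadj k Y)).card : ℝ) ≤ reps (2 * k) := by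
      exact_mod_cast le_reps k
    linarith

end Pool.Agent.Lib.H18R
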