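import Pool.Agent.Lib.H18R.Defs
import Pool.Agent.Lib.H18P.P1
import Pool.Agent.Lib.H96G.E2

/-!
# Project H18R (MP_443e5f_co): two vertices which are rich at two scales are at distance at most 13

Let `m ≤ m'` be scales, `u` a vertex with at least `m ^ (1 - b)` neighbours in `G m`, `v` a vertex with at least
`m' ^ (1 - b)` neighbours in `G m'`. If `1000 m ≤ m'`, the Maynard-Tao theorem (`H18P.jump`) gives a vertex `X` which is
generic at the scale `m` and has at least `m' / (log m') ^ B` neighbours at the scale `m'`. By project T (`Fin5`) `u` is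
at distance at most `1 + 5` from `X` in `G m`, and `X` and `v` are at distance at most `7` in `G m'`.
-/

open Finset

namespace Pool.Agent.Lib.H18R

open Pool.Agent.Goldbach Pool.Agent.Lib.H96G
open Pool.Agent.Lib.GoldbachGraph (hadj hdeg)
open Pool.Agent.Lib.H96G.Tr (finite_of_le deg_le le_deg)

/-- Larger graphs have smaller distances. -/
theorem gl_lift {V V' S S' : Set ℕ} (hV : V ⊆ V') (hS : S ⊆ S') (a b : V) :
    (halfGraph V' S').edist ⟨a, hV a.2⟩ ⟨b, hV b.2⟩ ≤ (halfGraph V S).edist a b := by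
  let f : halfGraph V S →g halfGraph V' S' :=
    { toFun := fun a => ⟨a, hV a.2⟩
      map_rel' := by
        rintro a b ⟨h1, h2, h3⟩
        refine ⟨fun h => h1 (Subtype.ext ?_), hS h2, hS h3⟩
        exact congrArg (fun x : V' => (x : ℕ)) h }
  refine le_iInf fun w => ?_
  have h := SimpleGraph.edist_le (w.map f)
  rw [SimpleGraph.Walk.length_map] at h
  exact h

/-- The family of graphs. -/
structure Fam (V S : ℕ → Set ℕ) : Prop where
  hV : ∀ n, ∀ a ∈ V n, Even a ∧ a ≤ 2 * n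
  hV2 : ∀ n, ∀ x ∈ Finset.Icc 1 n, 2 * x ∈ V n
  hS : ∀ n m, m.Prime → Odd m → m < 2 * n → m ∈ S n
  hS' : ∀ n, ∀ m ∈ S n, m = 1 ∨ (m.Prime ∧ Odd m)
  mV : ∀ m n, m ≤ n → V m ⊆ V n
  mS : ∀ m n, m ≤ n → S m ⊆ S n

theorem fam_gold : Fam goldbachVertices (fun n => {p | p.Prime ∧ Odd p ∧ p < 2 * n}) where
  hV := fun n a ha => ha
  hV2 := fun n x hx => by
    rw [Finset.mem_Icc] at hx
    exact ⟨even_two_mul x, by omega⟩
  hS := fun n m h1 h2 h3 => ⟨h1, h2, h3⟩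
  hS' := fun n m hm => Or.inr ⟨hm.1, hm.2.1⟩
  mV := fun m n h a ha => ⟨ha.1, ha.2.trans (by omega)⟩
  mS := fun m n h a ha => ⟨ha.1, ha.2.1, lt_of_lt_of_le ha.2.2 (by omega)⟩

theorem fam_near : Fam evenVertices (fun n => {1} ∪ {p | p.Prime ∧ Odd p ∧ p < 2 * n}) where
  hV := fun n a ha => ⟨ha.1, ha.2.2⟩
  hV2 := fun n x hx => by
    rw [Finset.mem_Icc] at hx
    exact ⟨even_two_mul x, by omega, by omega⟩
  hS := fun n m h1 h2 h3 => Or.inr ⟨h1, h2, h3⟩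
  hS' := fun n m hm => by
    rcases hm with hm | hm
    · exact Or.inl hm
    · exact Or.inr ⟨hm.1, hm.2.1⟩
  mV := fun m n h a ha => ⟨ha.1, ha.2.1, ha.2.2.trans (by omega)⟩
  mS := fun m n h a ha => by
    rcases ha with ha | ha
    · exact Or.inl ha
    · exact Or.inr ⟨ha.1, ha.2.1, lt_of_lt_of_le ha.2.2 (by omega)⟩

/-- The conclusion of project T at the scale `m`, with a fixed exponent `d`. -/
def PT (V : Set ℕ) (G : SimpleGraph V) (d : ℝ) (m : ℕ) : Prop :=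
  (∃ Γ : Set V, (Γᶜ.ncard : ℝ) ≤ (m : ℝ) ^ (1 - d) ∧ ∀ a ∈ Γ, ∀ b ∈ Γ, G.edist a b ≤ 5) ∧
  ∀ a b : V, (m : ℝ) ^ (1 - 2 * d) ≤ ((G.neighborSet a).ncard : ℝ) →
    (m : ℝ) ^ (1 - 2 * d) ≤ ((G.neighborSet b).ncard : ℝ) → G.edist a b ≤ 7

theorem gl_PT {V : Set ℕ} {G : SimpleGraph V} {d δ : ℝ} {m : ℕ} (hm : 1 ≤ m) (hd : d ≤ δ)
    (h : Fin5 m δ G) : PT V G d m := by
  obtain ⟨⟨Γ, h1, -, h3⟩, h4⟩ := h
  have hm1 : (1 : ℝ) ≤ m := by exact_mod_cast hm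
  refine ⟨⟨Γ, h1.trans (Real.rpow_le_rpow_of_exponent_le hm1 (by linarith)), fun a ha b hb => (h3 a ha b hb).1⟩,
    fun a b ha hb => (h4 a b ?_ ?_).1⟩
  · exact (Real.rpow_le_rpow_of_exponent_le hm1 (by linarith)).trans ha
  · exact (Real.rpow_le_rpow_of_exponent_le hm1 (by linarith)).trans hb

/-- A large set meets the generic set. -/
theorem gl_meet {V : Set ℕ} (hV : V.Finite) {Γ A : Set V} {t : ℝ} (h1 : (Γᶜ.ncard : ℝ) ≤ t)
    (h2 : t < (A.ncard : ℝ)) : ∃ x ∈ A, x ∈ Γ := by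
  by_contra h
  push Not at h
  have : Finite V := hV
  have h3 : A ⊆ Γᶜ := fun x hx => h x hx
  have h4 : A.ncard ≤ Γᶜ.ncard := Set.ncard_le_ncard h3 (Set.toFinite _)
  have h5 : (A.ncard : ℝ) ≤ Γᶜ.ncard := by exact_mod_cast h4
  linarith

/-- A set of numbers `x` gives a set of vertices `2 x` of the same size. -/
theorem gl_image {V : Set ℕ} (hV : V.Finite) (J : Finset ℕ) (hJ : ∀ x ∈ J, 2 * x ∈ V) :
    (J.card : ℝ) ≤ (({a : V | ∃ x ∈ J, (a : ℕ) = 2 * x}).ncard : ℝ) := by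
  have : Finite V := hV
  have h : J.card ≤ ({a : V | ∃ x ∈ J, (a : ℕ) = 2 * x}).ncard := by
    rw [← Set.ncard_coe_finset]
    have h1 : ((J : Set ℕ)) ⊆ (fun a : V => (a : ℕ) / 2) '' {a : V | ∃ x ∈ J, (a : ℕ) = 2 * x} := by
      intro x hx
      rw [Finset.mem_coe] at hx
      refine ⟨⟨2 * x, hJ x hx⟩, ⟨x, hx, rfl⟩, ?_⟩
      simp
    exact (Set.ncard_le_ncard h1 ((Set.toFinite _).image _)).trans (Set.ncard_image_le (Set.toFinite _))
  exact_mod_cast h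

/-- A vertex with many neighbours is at distance at most `1 + 5` from every generic vertex. -/
theorem gl_six {V : Set ℕ} (hV : V.Finite) {G : SimpleGraph V} {Γ : Set V} {t : ℝ}
    (h1 : (Γᶜ.ncard : ℝ) ≤ t) (h5 : ∀ a ∈ Γ, ∀ b ∈ Γ, G.edist a b ≤ 5) {u : V}
    (hu : t < ((G.neighborSet u).ncard : ℝ)) {x : V} (hx : x ∈ Γ) : G.edist u x ≤ 6 := by
  obtain ⟨y, hy, hyΓ⟩ := gl_meet hV h1 hu
  have hadj : G.Adj u y := hy
  have e1 : G.edist u y ≤ 1 := by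
    refine (SimpleGraph.edist_le (.cons hadj .nil)).trans ?_
    norm_num
  calc G.edist u x ≤ G.edist u y + G.edist y x := SimpleGraph.edist_triangle
    _ ≤ 1 + 5 := add_le_add e1 (h5 y hyΓ x hx)
    _ = 6 := by norm_num

/-- Thresholds. -/
theorem gl_thr (b d c : ℝ) (hbd : b < d) (hd : 0 < d) (hc : 0 < c) (B : ℕ) : ∃ n0 : ℕ, 1 ≤ n0 ∧
    ∀ m : ℕ, n0 ≤ m → (m : ℝ) ^ (1 - d) < (m : ℝ) ^ (1 - b) ∧ (m : ℝ) ^ (1 - d) < c * m ∧
      (m : ℝ) ^ (1 - 2 * d) ≤ m / (Real.log m) ^ B ∧ (m : ℝ) ^ (1 - 2 * d) ≤ (m : ℝ) ^ (1 - b) := by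
  have h1 := (tendsto_rpow_atTop (show 0 < d - b by linarith)).eventually_gt_atTop 1
  have h2 : ∀ᶠ y : ℝ in Filter.atTop, y ^ (-d) < c :=
    (tendsto_rpow_neg_atTop hd).eventually (gt_mem_nhds hc)
  have h3 : ∀ᶠ y : ℝ in Filter.atTop, (Real.log y) ^ B ≤ y ^ (2 * d) := by
    have k := (isLittleO_log_rpow_rpow_atTop (B : ℝ) (show 0 < 2 * d by linarith)).def one_pos
    filter_upwards [k, Filter.eventually_ge_atTop (1 : ℝ)] with y k hy
    have hL : 0 ≤ Real.log y := Real.log_nonneg hy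
    rw [Real.rpow_natCast, Real.norm_of_nonneg (by positivity), Real.norm_of_nonneg (by positivity), one_mul] at k
    exact k
  obtain ⟨n0, hn0⟩ := Filter.eventually_atTop.1
    (tendsto_natCast_atTop_atTop.eventually (h1.and (h2.and h3)))
  refine ⟨max n0 2, by omega, fun m hm => ?_⟩
  obtain ⟨e1, e2, e3⟩ := hn0 m (by omega)
  have hm2 : (2 : ℝ) ≤ m := by exact_mod_cast (by omega : 2 ≤ m)
  have hm0 : (0 : ℝ) < m := by linarith
  have hlog : 0 < Real.log m := Real.log_pos (by linarith)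
  refine ⟨?_, ?_, ?_, ?_⟩
  · have k1 : (m : ℝ) ^ (1 - b) = (m : ℝ) ^ (1 - d) * (m : ℝ) ^ (d - b) := by
      rw [← Real.rpow_add hm0]
      congr 1
      ring
    rw [k1]
    have k2 : 0 < (m : ℝ) ^ (1 - d) := Real.rpow_pos_of_pos hm0 _
    nlinarith
  · have k1 : (m : ℝ) ^ (1 - d) = m * (m : ℝ) ^ (-d) := by
      rw [sub_eq_add_neg, Real.rpow_add hm0, Real.rpow_one]
    rw [k1, mul_comm c]
    exact mul_lt_mul_of_pos_left e2 hm0
  · rw [le_div_iff₀ (by positivity)]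
    have k1 : (m : ℝ) = (m : ℝ) ^ (1 - 2 * d) * (m : ℝ) ^ (2 * d) := by
      rw [← Real.rpow_add hm0]
      have : 1 - 2 * d + 2 * d = 1 := by ring
      rw [this, Real.rpow_one]
    calc (m : ℝ) ^ (1 - 2 * d) * Real.log m ^ B ≤ (m : ℝ) ^ (1 - 2 * d) * (m : ℝ) ^ (2 * d) :=
          mul_le_mul_of_nonneg_left e3 (Real.rpow_nonneg hm0.le _)
      _ = m := k1.symm
  · exact Real.rpow_le_rpow_of_exponent_le (by linarith) (by linarith)

/-- **Two scales.** -/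
theorem gl_pair {V S : ℕ → Set ℕ} (hF : Fam V S) (b d : ℝ) (hbd : b < d) (hd : 0 < d) (N : ℕ)
    (hT : ∀ n ≥ N, PT (V n) (halfGraph (V n) (S n)) d n) : ∃ n0 : ℕ, 1 ≤ n0 ∧ ∀ m m' : ℕ, n0 ≤ m → ∀ hmm : m ≤ m',
    ∀ (u : V m) (v : V m'), (m : ℝ) ^ (1 - b) ≤ (((halfGraph (V m) (S m)).neighborSet u).ncard : ℝ) →
      (m' : ℝ) ^ (1 - b) ≤ (((halfGraph (V m') (S m')).neighborSet v).ncard : ℝ) →
      (halfGraph (V m') (S m')).edist ⟨u, hF.mV m m' hmm u.2⟩ v ≤ 13 := by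
  classical
  obtain ⟨c, hc, B, m0, n1, hjump⟩ := Pool.Agent.Lib.H18P.jump
  obtain ⟨n2, hn2, hthr⟩ := gl_thr b d (min c (1 / 2000)) hbd hd (lt_min hc (by norm_num)) B
  refine ⟨max (max N n2) (max (max n1 m0) 1), by omega, fun m m' hm hmm u v hu hv => ?_⟩
  have hVm := finite_of_le (hF.hV m)
  have hVm' := finite_of_le (hF.hV m')
  obtain ⟨⟨Γ, hΓ1, hΓ2⟩, -⟩ := hT m (by omega)
  obtain ⟨⟨Γ', hΓ1', hΓ2'⟩, hR⟩ := hT m' (by omega)
  obtain ⟨t1, t2, t3, t4⟩ := hthr m (by omega)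
  obtain ⟨t1', t2', t3', t4'⟩ := hthr m' (by omega)
  have hm1 : (1 : ℝ) ≤ m := by exact_mod_cast (by omega : 1 ≤ m)
  have hlift : ∀ x : V m, (halfGraph (V m) (S m)).edist u x ≤ 6 →
      (halfGraph (V m') (S m')).edist ⟨u, hF.mV m m' hmm u.2⟩ ⟨x, hF.mV m m' hmm x.2⟩ ≤ 6 := fun x hx =>
    (gl_lift (hF.mV m m' hmm) (hF.mS m m' hmm) u x).trans hx
  by_cases h1000 : 1000 * m ≤ m'
  · set J := (Icc 1 m).filter (fun X => (m' : ℝ) / (Real.log m') ^ B ≤ hdeg m' X) with hJ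
    have hJc : c * m ≤ (J.card : ℝ) := hjump m' (by omega) m (by omega) h1000
    have hJV : ∀ x ∈ J, 2 * x ∈ V m := fun x hx => hF.hV2 m x (mem_filter.1 hx).1
    have h1 := gl_image hVm J hJV
    have h2 : min c (1 / 2000) * m ≤ c * m := mul_le_mul_of_nonneg_right (min_le_left _ _) (by linarith)
    obtain ⟨X, ⟨x, hxJ, hXx⟩, hXΓ⟩ := gl_meet hVm hΓ1 (A := {a : V m | ∃ x ∈ J, (a : ℕ) = 2 * x}) (by linarith)
    have e1 := hlift X (gl_six hVm hΓ1 hΓ2 (by linarith) hXΓ)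
    rw [hJ, mem_filter, mem_Icc] at hxJ
    have hx' : x ∈ Icc 1 m' := mem_Icc.2 ⟨hxJ.1.1, hxJ.1.2.trans hmm⟩
    have e2 : (halfGraph (V m') (S m')).edist ⟨X, hF.mV m m' hmm X.2⟩ v ≤ 7 := by
      refine hR _ _ ?_ (t4'.trans hv)
      have h3 := le_deg (hF.hV m') (hF.hV2 m') (hF.hS m') x hx' (hF.hV2 m' x hx')
      have h4 : (⟨X, hF.mV m m' hmm X.2⟩ : V m') = ⟨2 * x, hF.hV2 m' x hx'⟩ := Subtype.ext hXx
      rw [h4]
      have h5 : (hdeg m' x : ℝ) ≤ (((halfGraph (V m') (S m')).neighborSet ⟨2 * x, hF.hV2 m' x hx'⟩).ncard : ℝ) := by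
        exact_mod_cast h3
      exact (t3'.trans hxJ.2).trans h5
    calc (halfGraph (V m') (S m')).edist ⟨u, hF.mV m m' hmm u.2⟩ v
        ≤ (halfGraph (V m') (S m')).edist ⟨u, hF.mV m m' hmm u.2⟩ ⟨X, hF.mV m m' hmm X.2⟩ +
          (halfGraph (V m') (S m')).edist ⟨X, hF.mV m m' hmm X.2⟩ v := SimpleGraph.edist_triangle
      _ ≤ 6 + 7 := add_le_add e1 e2
      _ = 13 := by norm_num
  · push Not at h1000
    -- a common generic vertex
    obtain ⟨X, hX1, hX2⟩ : ∃ X : V m, X ∈ Γ ∧ (⟨X, hF.mV m m' hmm X.2⟩ : V m') ∈ Γ' := by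
      by_contra hcon
      push Not at hcon
      have h1 : (Γ.ncard : ℝ) ≤ (Γ'ᶜ.ncard : ℝ) := by
        have : Finite (V m') := hVm'
        have h2 : Γ.ncard ≤ Γ'ᶜ.ncard := by
          apply Set.ncard_le_ncard_of_injOn (fun X : V m => (⟨X, hF.mV m m' hmm X.2⟩ : V m'))
          · intro X hX
            exact hcon X hX
          · intro X _ Y _ hXY
            exact Subtype.ext (congrArg (fun x : V m' => (x : ℕ)) hXY)
        exact_mod_cast h2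
      have h2 : ((Icc 1 m).card : ℝ) ≤ (Γ.ncard : ℝ) + Γᶜ.ncard := by
        have h3 := gl_image hVm (Icc 1 m) (hF.hV2 m)
        have : Finite (V m) := hVm
        have h4 : ({a : V m | ∃ x ∈ Icc 1 m, (a : ℕ) = 2 * x}).ncard ≤ (Set.univ : Set (V m)).ncard :=
          Set.ncard_le_ncard (Set.subset_univ _) (Set.toFinite _)
        have h5 : (Set.univ : Set (V m)).ncard = Γ.ncard + Γᶜ.ncard := by
          rw [Set.ncard_add_ncard_compl, Set.ncard_univ]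
        have h6 : ({a : V m | ∃ x ∈ Icc 1 m, (a : ℕ) = 2 * x}).ncard ≤ Γ.ncard + Γᶜ.ncard := by omega
        have h7 : (({a : V m | ∃ x ∈ Icc 1 m, (a : ℕ) = 2 * x}).ncard : ℝ) ≤ Γ.ncard + Γᶜ.ncard := by
          exact_mod_cast h6
        linarith
      rw [Nat.card_Icc, Nat.add_sub_cancel] at h2
      have h3 : min c (1 / 2000) * (m : ℝ) ≤ 1 / 2000 * m := mul_le_mul_of_nonneg_right (min_le_right _ _) (by linarith)
      have h4 : min c (1 / 2000) * (m' : ℝ) ≤ 1 / 2000 * m' :=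
        mul_le_mul_of_nonneg_right (min_le_right _ _) (Nat.cast_nonneg _)
      have h5 : (m' : ℝ) ≤ 1000 * m := by exact_mod_cast h1000.le
      linarith
    have e1 := hlift X (gl_six hVm hΓ1 hΓ2 (by linarith) hX1)
    have e2 := gl_six hVm' hΓ1' hΓ2' (by linarith) hX2 (u := v)
    rw [SimpleGraph.edist_comm] at e2
    calc (halfGraph (V m') (S m')).edist ⟨u, hF.mV m m' hmm u.2⟩ v
        ≤ (halfGraph (V m') (S m')).edist ⟨u, hF.mV m m' hmm u.2⟩ ⟨X, hF.mV m m' hmm X.2⟩ +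
          (halfGraph (V m') (S m')).edist ⟨X, hF.mV m m' hmm X.2⟩ v := SimpleGraph.edist_triangle
      _ ≤ 6 + 6 := add_le_add e1 e2
      _ ≤ 13 := by norm_num

end Pool.Agent.Lib.H18R
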