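import Pool.Agent.Lib.H18R.OG
import Pool.Agent.Lib.H18R.GL
import Pool.Agent.Lib.H18R.FX

/-!
# Project H18R (MP_443e5f_co): all vertices outside of a fixed thin set

`F = {x | x < N1, or x is not generic for some power of two in [x, x ^ (1 + 2 δ)]}`. Two elements `x ≤ y ≤ x ^ (1 + δ)` of
the complement are generic for the same power of two, so at distance at most `5`. If `y > x ^ (1 + δ)` the Maynard-Tao
theorem (`H18P.jump`) gives a vertex `X`, generic at the scale of `x`, with many neighbours in `[1, y]`, one of which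
is generic at the scale of `y`: distance at most `5 + 1 + 5`.
-/

open Finset

namespace Pool.Agent.Lib.H18R

open Pool.Agent.Lib.H96G
open Pool.Agent.Lib.GoldbachGraph (hadj hdeg hadj_comm)

theorem of_mono {m n : ℕ} (h : m ≤ n) (x y : ℕ) : (HL 1 n).edist x y ≤ (HL 1 m).edist x y := by
  apply SimpleGraph.edist_anti
  intro u v huv
  obtain ⟨h1, h2, h3⟩ := huv
  rw [mem_Icc] at h2 h3
  exact ⟨h1, mem_Icc.2 ⟨h2.1, h2.2.trans h⟩, mem_Icc.2 ⟨h3.1, h3.2.trans h⟩⟩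

/-- Generic sets for all large sizes. -/
theorem of_own (c0 : ℝ) (hc0 : 0 < c0) (n1 : ℕ)
    (h : ∀ n : ℕ, n1 ≤ n → ∃ (M : ℕ) (L : ℕ → ℤ → ℝ) (c B b : ℝ), c0 ≤ b ∧ GIn n M L c B b) :
    ∃ D : ℝ, 0 < D ∧ D ≤ 1 / 2 ∧ ∃ N : ℕ, ∀ n : ℕ, N ≤ n → ∃ Γ : Finset ℕ, Γ ⊆ Icc 1 n ∧ Own n D Γ := by
  obtain ⟨n2, hn2⟩ := nm_ev c0 hc0
  refine ⟨10 * c0, by positivity, ?_, max n1 (max n2 1), fun n hn => ?_⟩
  · obtain ⟨M, L, c, B, b, hb, hG⟩ := h n1 le_rfl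
    have := hG.hb
    have := hG.hB
    have := hG.hc
    linarith
  · have h1 : n1 ≤ n := le_trans (le_max_left _ _) hn
    have h2 : n2 ≤ n := le_trans (le_trans (le_max_left _ _) (le_max_right _ _)) hn
    have h3 : 1 ≤ n := le_trans (le_trans (le_max_right _ _) (le_max_right _ _)) hn
    obtain ⟨M, L, c, B, b, hb, hG⟩ := h n h1
    obtain ⟨Γ, h4, h5, h6⟩ := og (hn2 n h2 b hb) hG
    have hB1 := hG.hb
    have hn1 : (1 : ℝ) ≤ n := by exact_mod_cast h3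
    exact ⟨Γ, h4, h5.trans (Real.rpow_le_rpow_of_exponent_le hn1 (by linarith)), h6⟩

/-- Thresholds. -/
theorem of_thr (δ D c : ℝ) (hδ : 0 < δ) (hD : 0 < D) (hc : 0 < c) (B : ℕ) : ∃ n0 : ℕ, 2 ≤ n0 ∧
    ∀ m : ℕ, n0 ≤ m → 2000 ≤ (m : ℝ) ^ δ ∧ ∀ m' : ℕ, m ≤ m' →
      (m' : ℝ) ^ (1 - D) < c * m' ∧ ((2 * m' : ℕ) : ℝ) ^ (1 - D) < m' / (Real.log m') ^ B := by
  have h1 := (tendsto_rpow_atTop hδ).eventually_ge_atTop 2000
  have h2 : ∀ᶠ y : ℝ in Filter.atTop, y ^ (-D) < c :=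
    (tendsto_rpow_neg_atTop hD).eventually (gt_mem_nhds hc)
  have h3 : ∀ᶠ y : ℝ in Filter.atTop, 4 * (Real.log y) ^ B ≤ y ^ D := by
    have k := (isLittleO_log_rpow_rpow_atTop (B : ℝ) hD).def (show (0 : ℝ) < 1 / 4 by norm_num)
    filter_upwards [k, Filter.eventually_ge_atTop (1 : ℝ)] with y k hy
    have hL : 0 ≤ Real.log y := Real.log_nonneg hy
    rw [Real.rpow_natCast, Real.norm_of_nonneg (by positivity), Real.norm_of_nonneg (by positivity)] at k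
    linarith
  obtain ⟨n0, hn0⟩ := Filter.eventually_atTop.1
    (tendsto_natCast_atTop_atTop.eventually (h1.and (h2.and h3)))
  refine ⟨max n0 2, le_max_right _ _, fun m hm => ⟨(hn0 m (by omega)).1, fun m' hm' => ?_⟩⟩
  obtain ⟨-, e2, e3⟩ := hn0 m' (by omega)
  have hm2 : (2 : ℝ) ≤ m' := by exact_mod_cast (by omega : 2 ≤ m')
  have hm0 : (0 : ℝ) < m' := by linarith
  have hlog : 0 < Real.log m' := Real.log_pos (by linarith)
  have k1 : (m' : ℝ) ^ (1 - D) = m' * (m' : ℝ) ^ (-D) := by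
    rw [sub_eq_add_neg, Real.rpow_add hm0, Real.rpow_one]
  refine ⟨?_, ?_⟩
  · rw [k1, mul_comm c]
    exact mul_lt_mul_of_pos_left e2 hm0
  · rw [lt_div_iff₀ (by positivity)]
    have k2 : ((2 * m' : ℕ) : ℝ) ^ (1 - D) ≤ 2 * (m' : ℝ) ^ (1 - D) := by
      push_cast
      rw [Real.mul_rpow (by norm_num) hm0.le]
      apply mul_le_mul_of_nonneg_right _ (Real.rpow_nonneg hm0.le _)
      calc (2 : ℝ) ^ (1 - D) ≤ 2 ^ (1 : ℝ) :=
            Real.rpow_le_rpow_of_exponent_le (by norm_num) (by linarith)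
        _ = 2 := Real.rpow_one _
    have k3 : 0 < (m' : ℝ) ^ (-D) := Real.rpow_pos_of_pos hm0 _
    have k4 : (m' : ℝ) ^ (-D) * (m' : ℝ) ^ D = 1 := by
      rw [← Real.rpow_add hm0]
      have : -D + D = 0 := by ring
      rw [this, Real.rpow_zero]
    have k5 : (m' : ℝ) ^ (-D) * (4 * Real.log m' ^ B) ≤ 1 := by
      rw [← k4]
      exact mul_le_mul_of_nonneg_left e3 k3.le
    have k6 : 0 ≤ Real.log m' ^ B := by positivity
    calc ((2 * m' : ℕ) : ℝ) ^ (1 - D) * Real.log m' ^ B ≤ (2 * (m' : ℝ) ^ (1 - D)) * Real.log m' ^ B :=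
          mul_le_mul_of_nonneg_right k2 k6
      _ = m' * ((m' : ℝ) ^ (-D) * (4 * Real.log m' ^ B)) / 2 := by rw [k1]; ring
      _ ≤ m' * 1 / 2 := by
          have := mul_le_mul_of_nonneg_left k5 hm0.le
          linarith
      _ < m' := by linarith

/-- Counting. -/
theorem of_count (D : ℝ) (hD : 0 < D) (hD2 : D ≤ 1 / 2) (N1 : ℕ) (Γ : ℕ → Finset ℕ)
    (hΓ : ∀ n, N1 ≤ n → ((Icc 1 n \ Γ n).card : ℝ) ≤ (n : ℝ) ^ (1 - D)) (hN1 : 3 ≤ N1) (a : ℝ) (ha : a < D / 4) :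
    ∃ x0 : ℕ, ∀ x : ℕ, x0 ≤ x → (({x : ℕ | x < N1 ∨ ∃ k : ℕ, x ≤ 2 ^ k ∧ ((2 ^ k : ℕ) : ℝ) ≤ (x : ℝ) ^ (1 + 2 * (D / 4)) ∧
      x ∉ Γ (2 ^ k)} ∩ Set.Icc 0 x).ncard : ℝ) ≤ (x : ℝ) ^ (1 - a) := by
  classical
  set δ := D / 4 with hδ
  have hδ0 : 0 < δ := by positivity
  have hev : ∀ᶠ y : ℝ in Filter.atTop, 16 * Real.log y ≤ y ^ (δ) ∧ 2 * (N1 : ℝ) ≤ y ^ (1 - a) := by
    have k1 := (isLittleO_log_rpow_atTop hδ0).def (show (0 : ℝ) < 1 / 16 by norm_num)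
    filter_upwards [k1, (tendsto_rpow_atTop (show 0 < 1 - a by linarith)).eventually_ge_atTop (2 * (N1 : ℝ)),
      Filter.eventually_ge_atTop (3 : ℝ)] with y k1 k2 k3
    have hL : 0 ≤ Real.log y := Real.log_nonneg (by linarith)
    rw [Real.norm_of_nonneg hL, Real.norm_of_nonneg (by positivity)] at k1
    exact ⟨by linarith, k2⟩
  obtain ⟨n2, hn2⟩ := Filter.eventually_atTop.1 (tendsto_natCast_atTop_atTop.eventually hev)
  refine ⟨max n2 N1, fun x hx => ?_⟩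
  obtain ⟨e1, e2⟩ := hn2 x (by omega)
  have hx3 : 3 ≤ x := by omega
  obtain ⟨k1, k2, k3⟩ := clog_bounds x hx3
  have hx1 : (1 : ℝ) ≤ x := by exact_mod_cast (by omega : 1 ≤ x)
  have hxR : (0 : ℝ) < x := by linarith
  set J := Nat.clog 2 x with hJ
  set I := (range (2 * J + 1)).filter (fun k => N1 ≤ 2 ^ k ∧ ((2 ^ k : ℕ) : ℝ) ≤ (x : ℝ) ^ (1 + 2 * δ)) with hI
  have hsub : {x : ℕ | x < N1 ∨ ∃ k : ℕ, x ≤ 2 ^ k ∧ ((2 ^ k : ℕ) : ℝ) ≤ (x : ℝ) ^ (1 + 2 * δ) ∧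
      x ∉ Γ (2 ^ k)} ∩ Set.Icc 0 x ⊆
      ((range N1 ∪ I.biUnion (fun k => Icc 1 (2 ^ k) \ Γ (2 ^ k)) : Finset ℕ) : Set ℕ) := by
    rintro y ⟨hy, -, hyx⟩
    rw [mem_coe, mem_union, mem_range, mem_biUnion]
    by_cases hyN : y < N1
    · exact Or.inl hyN
    · right
      obtain ⟨k, h1, h2, h3⟩ := hy.resolve_left hyN
      have hy1 : (1 : ℝ) ≤ y := by exact_mod_cast (by omega : 1 ≤ y)
      have h4 : ((2 ^ k : ℕ) : ℝ) ≤ (x : ℝ) ^ (1 + 2 * δ) :=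
        h2.trans (Real.rpow_le_rpow (by linarith) (by exact_mod_cast hyx) (by linarith))
      refine ⟨k, ?_, mem_sdiff.2 ⟨mem_Icc.2 ⟨by omega, h1⟩, h3⟩⟩
      rw [hI, mem_filter, mem_range]
      refine ⟨?_, by omega, h4⟩
      -- k ≤ 2 J
      have h5 : (x : ℝ) ^ (1 + 2 * δ) ≤ (x : ℝ) ^ (2 : ℝ) :=
        Real.rpow_le_rpow_of_exponent_le hx1 (by rw [hδ]; linarith)
      rw [Real.rpow_two] at h5
      have h6 : 2 ^ k ≤ x ^ 2 := by exact_mod_cast h4.trans h5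
      have h7 : x ^ 2 ≤ 2 ^ (2 * J) := by
        calc x ^ 2 ≤ (2 ^ J) ^ 2 := Nat.pow_le_pow_left k1 2
          _ = 2 ^ (2 * J) := by rw [← pow_mul, mul_comm]
      have h8 := (Nat.pow_le_pow_iff_right (by norm_num : 1 < 2)).1 (h6.trans h7)
      omega
  have hc1 : (({x : ℕ | x < N1 ∨ ∃ k : ℕ, x ≤ 2 ^ k ∧ ((2 ^ k : ℕ) : ℝ) ≤ (x : ℝ) ^ (1 + 2 * δ) ∧
      x ∉ Γ (2 ^ k)} ∩ Set.Icc 0 x).ncard) ≤ N1 + ∑ k ∈ I, (Icc 1 (2 ^ k) \ Γ (2 ^ k)).card := by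
    refine (Set.ncard_le_ncard hsub (finite_toSet _)).trans ?_
    rw [Set.ncard_coe_finset]
    refine (card_union_le _ _).trans ?_
    rw [card_range]
    exact Nat.add_le_add_left card_biUnion_le _
  have hexp : (1 + 2 * δ) * (1 - D) ≤ 1 - δ - a := by
    have : D = 4 * δ := by rw [hδ]; ring
    rw [this]
    nlinarith [sq_nonneg δ]
  have hBk : ∀ k ∈ I, ((Icc 1 (2 ^ k) \ Γ (2 ^ k)).card : ℝ) ≤ (x : ℝ) ^ (1 - δ - a) := by
    intro k hk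
    rw [hI, mem_filter] at hk
    refine (hΓ (2 ^ k) hk.2.1).trans ?_
    calc ((2 ^ k : ℕ) : ℝ) ^ (1 - D) ≤ ((x : ℝ) ^ (1 + 2 * δ)) ^ (1 - D) :=
          Real.rpow_le_rpow (Nat.cast_nonneg _) hk.2.2 (by linarith)
      _ = (x : ℝ) ^ ((1 + 2 * δ) * (1 - D)) := by rw [← Real.rpow_mul hxR.le]
      _ ≤ (x : ℝ) ^ (1 - δ - a) := Real.rpow_le_rpow_of_exponent_le hx1 hexp
  have hIc : (I.card : ℝ) ≤ 8 * Real.log x := by
    have h1 : I.card ≤ 2 * J + 1 := (card_filter_le _ _).trans (by rw [card_range])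
    have h2 : (I.card : ℝ) ≤ 2 * J + 1 := by exact_mod_cast h1
    linarith
  have hsum : (∑ k ∈ I, ((Icc 1 (2 ^ k) \ Γ (2 ^ k)).card : ℝ)) ≤ 8 * Real.log x * (x : ℝ) ^ (1 - δ - a) := by
    refine (sum_le_sum hBk).trans ?_
    rw [sum_const, nsmul_eq_mul]
    exact mul_le_mul_of_nonneg_right hIc (by positivity)
  have hc2 : ((({x : ℕ | x < N1 ∨ ∃ k : ℕ, x ≤ 2 ^ k ∧ ((2 ^ k : ℕ) : ℝ) ≤ (x : ℝ) ^ (1 + 2 * δ) ∧
      x ∉ Γ (2 ^ k)} ∩ Set.Icc 0 x).ncard : ℕ) : ℝ) ≤ N1 + ∑ k ∈ I, ((Icc 1 (2 ^ k) \ Γ (2 ^ k)).card : ℝ) := by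
    exact_mod_cast hc1
  have hp2 : 8 * Real.log x * (x : ℝ) ^ (1 - δ - a) ≤ (x : ℝ) ^ (1 - a) / 2 := by
    have h4 : (x : ℝ) ^ (1 - a) = (x : ℝ) ^ (1 - δ - a) * (x : ℝ) ^ δ := by
      rw [← Real.rpow_add hxR]
      congr 1
      ring
    have h5 : 0 ≤ (x : ℝ) ^ (1 - δ - a) := Real.rpow_nonneg hxR.le _
    rw [h4]
    calc 8 * Real.log x * (x : ℝ) ^ (1 - δ - a) ≤ ((x : ℝ) ^ δ / 2) * (x : ℝ) ^ (1 - δ - a) :=
          mul_le_mul_of_nonneg_right (by linarith) h5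
      _ = (x : ℝ) ^ (1 - δ - a) * (x : ℝ) ^ δ / 2 := by ring
  linarith

/-- **The halved graph.** -/
theorem of_main (hO : ∃ D : ℝ, 0 < D ∧ D ≤ 1 / 2 ∧ ∃ N : ℕ, ∀ n : ℕ, N ≤ n → ∃ Γ : Finset ℕ, Γ ⊆ Icc 1 n ∧ Own n D Γ) :
    ∃ δ : ℝ, 0 < δ ∧ δ ≤ 1 / 8 ∧ ∀ a : ℝ, a < δ → ∀ N : ℕ, ∃ (F : Set ℕ) (x0 : ℕ),
      (∀ x : ℕ, x0 ≤ x → ((F ∩ Set.Icc 0 x).ncard : ℝ) ≤ (x : ℝ) ^ (1 - a)) ∧ (∀ x : ℕ, x ∉ F → N ≤ x) ∧
      ∀ x y : ℕ, x ∉ F → y ∉ F → x ≤ y → (HL 1 y).edist x y ≤ 11 ∧ ((y : ℝ) ≤ (x : ℝ) ^ (1 + δ) →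
        (HL 1 y).edist x y ≤ 5 ∧ (x % 2 = y % 2 → (HL 1 y).edist x y ≤ 4) ∧ (OT x y → (HL 1 y).edist x y ≤ 3)) := by
  classical
  obtain ⟨D, hD, hD2, N0, hO⟩ := hO
  choose! Γ hΓ1 hΓ2 using hO
  obtain ⟨c, hc, B, m0, n1, hjump⟩ := Pool.Agent.Lib.H18P.jump
  obtain ⟨n2, hn2, hthr⟩ := of_thr (D / 4) D c (by positivity) hD hc B
  refine ⟨D / 4, by positivity, by linarith, fun a ha N => ?_⟩
  set N1 := max (max (max N0 N) (max m0 n1)) (max n2 3) with hN1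
  obtain ⟨x0, hx0⟩ := of_count D hD hD2 N1 Γ (fun n hn => (hΓ2 n (by omega)).1) (by omega) a ha
  refine ⟨_, x0, hx0, fun x hx => ?_, fun x y hx hy hxy => ?_⟩
  · simp only [Set.mem_ofPred_eq, not_or, not_lt] at hx
    have := hx.1
    omega
  · simp only [Set.mem_ofPred_eq, not_or, not_lt, not_exists, not_and, not_not] at hx hy
    obtain ⟨hxN, hxk⟩ := hx
    obtain ⟨hyN, hyk⟩ := hy
    obtain ⟨t1, t2⟩ := hthr x (by omega)
    obtain ⟨t1', -⟩ := hthr y (by omega)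
    have hx1 : (1 : ℝ) ≤ x := by exact_mod_cast (by omega : 1 ≤ x)
    have hy1 : (1 : ℝ) ≤ y := by exact_mod_cast (by omega : 1 ≤ y)
    have hx0' : (0 : ℝ) < x := by linarith
    have hy0' : (0 : ℝ) < y := by linarith
    obtain ⟨cx1, cx2, -⟩ := clog_bounds x (by omega)
    obtain ⟨cy1, cy2, -⟩ := clog_bounds y (by omega)
    have hsplit : ∀ z : ℝ, 0 < z → z ^ (1 + 2 * (D / 4)) = z * z ^ (D / 4) * z ^ (D / 4) := by
      intro z hz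
      rw [mul_assoc, ← Real.rpow_add hz]
      nth_rewrite 2 [← Real.rpow_one z]
      rw [← Real.rpow_add hz]
      congr 1
      ring
    have hsplit1 : ∀ z : ℝ, 0 < z → z ^ (1 + D / 4) = z * z ^ (D / 4) := by
      intro z hz
      rw [Real.rpow_add hz, Real.rpow_one]
    have hbig : ∀ z : ℝ, 1 ≤ z → 2000 ≤ z ^ (D / 4) → 2 * z ≤ z * z ^ (D / 4) * z ^ (D / 4) := by
      intro z hz1 hz
      have k1 : z * 2000 ≤ z * z ^ (D / 4) := mul_le_mul_of_nonneg_left hz (by linarith)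
      have k2 : z * z ^ (D / 4) * 1 ≤ z * z ^ (D / 4) * z ^ (D / 4) :=
        mul_le_mul_of_nonneg_left (by linarith) (by linarith)
      linarith
    -- own scales
    have hyΓ : y ∈ Γ (2 ^ Nat.clog 2 y) := by
      refine hyk _ cy1 ?_
      have h1 : ((2 ^ Nat.clog 2 y : ℕ) : ℝ) ≤ 2 * y := by exact_mod_cast cy2.le
      rw [hsplit y hy0']
      exact h1.trans (hbig y hy1 t1')
    have hxΓ : x ∈ Γ (2 ^ Nat.clog 2 x) := by
      refine hxk _ cx1 ?_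
      have h1 : ((2 ^ Nat.clog 2 x : ℕ) : ℝ) ≤ 2 * x := by exact_mod_cast cx2.le
      rw [hsplit x hx0']
      exact h1.trans (hbig x hx1 t1)
    have hnear : (y : ℝ) ≤ (x : ℝ) ^ (1 + D / 4) →
        (HL 1 y).edist x y ≤ 5 ∧ (x % 2 = y % 2 → (HL 1 y).edist x y ≤ 4) ∧ (OT x y → (HL 1 y).edist x y ≤ 3) := by
      intro hyx
      have hxΓ' : x ∈ Γ (2 ^ Nat.clog 2 y) := by
        refine hxk _ (hxy.trans cy1) ?_
        have h1 : ((2 ^ Nat.clog 2 y : ℕ) : ℝ) ≤ 2 * y := by exact_mod_cast cy2.le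
        rw [hsplit x hx0']
        rw [hsplit1 x hx0'] at hyx
        have h2 : 0 ≤ (x : ℝ) * (x : ℝ) ^ (D / 4) := by positivity
        nlinarith
      exact (hΓ2 _ (by omega)).2 x hxΓ' y hyΓ y hxy le_rfl cy1
    refine ⟨?_, hnear⟩
    by_cases hcase : (y : ℝ) ≤ (x : ℝ) ^ (1 + D / 4)
    · exact (hnear hcase).1.trans (by norm_num)
    · push Not at hcase
      rw [hsplit1 x hx0'] at hcase
      have h2000 : 2000 * x ≤ y := by
        have h1 : (2000 : ℝ) * x ≤ y := by nlinarith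
        exact_mod_cast h1
      set m := 2 ^ Nat.clog 2 x with hm
      set m' := 2 ^ Nat.clog 2 y with hm'
      have hmy : 1000 * m ≤ y := by omega
      obtain ⟨tm1, -⟩ := t2 m cx1
      obtain ⟨-, ty⟩ := t2 y hxy
      have hJ := hjump y (by omega) m (by omega) hmy
      -- the link
      obtain ⟨X, hX1, hX2⟩ : ∃ X ∈ (Icc 1 m).filter (fun X => (y : ℝ) / (Real.log y) ^ B ≤ hdeg y X), X ∈ Γ m := by
        by_contra hcon
        push Not at hcon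
        have h1 : (Icc 1 m).filter (fun X => (y : ℝ) / (Real.log y) ^ B ≤ hdeg y X) ⊆ Icc 1 m \ Γ m := fun X hX =>
          mem_sdiff.2 ⟨(mem_filter.1 hX).1, hcon X hX⟩
        have h2 : (((Icc 1 m).filter (fun X => (y : ℝ) / (Real.log y) ^ B ≤ hdeg y X)).card : ℝ) ≤
            ((Icc 1 m \ Γ m).card : ℝ) := by exact_mod_cast card_le_card h1
        have h3 := (hΓ2 m (by omega)).1
        linarith
      rw [mem_filter, mem_Icc] at hX1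
      obtain ⟨Y, hY1, hY2⟩ : ∃ Y ∈ (Icc 1 y).filter (fun Y => hadj X Y), Y ∈ Γ m' := by
        by_contra hcon
        push Not at hcon
        have h1 : (Icc 1 y).filter (fun Y => hadj X Y) ⊆ Icc 1 m' \ Γ m' := fun Y hY => by
          have h4 := mem_Icc.1 (mem_filter.1 hY).1
          exact mem_sdiff.2 ⟨mem_Icc.2 ⟨h4.1, h4.2.trans cy1⟩, hcon Y hY⟩
        have h2 : (hdeg y X : ℝ) ≤ ((Icc 1 m' \ Γ m').card : ℝ) := by
          have : hdeg y X ≤ (Icc 1 m' \ Γ m').card := card_le_card h1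
          exact_mod_cast this
        have h3 := (hΓ2 m' (by omega)).1
        have h4 : ((m' : ℕ) : ℝ) ^ (1 - D) ≤ ((2 * y : ℕ) : ℝ) ^ (1 - D) :=
          Real.rpow_le_rpow (Nat.cast_nonneg _) (by exact_mod_cast cy2.le) (by linarith)
        have h5 := hX1.2
        linarith
      rw [mem_filter, mem_Icc] at hY1
      have e1 : (HL 1 y).edist x X ≤ 5 := (of_mono (by omega : m ≤ y) x X).trans
        ((hΓ2 m (by omega)).2 x hxΓ X hX2 m cx1 hX1.1.2 le_rfl).1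
      have e2 : (HL 1 y).edist X Y ≤ 1 := by
        have hadj1 : (HL 1 y).Adj X Y := ⟨hY1.2, mem_Icc.2 ⟨hX1.1.1, by omega⟩, mem_Icc.2 hY1.1⟩
        refine (SimpleGraph.edist_le (.cons hadj1 .nil)).trans ?_
        norm_num
      have e3 : (HL 1 y).edist Y y ≤ 5 := ((hΓ2 m' (by omega)).2 Y hY2 y hyΓ y hY1.1.2 le_rfl cy1).1
      calc (HL 1 y).edist x y ≤ (HL 1 y).edist x Y + (HL 1 y).edist Y y := SimpleGraph.edist_triangle
        _ ≤ ((HL 1 y).edist x X + (HL 1 y).edist X Y) + (HL 1 y).edist Y y :=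
            add_le_add_left SimpleGraph.edist_triangle _
        _ ≤ (5 + 1) + 5 := add_le_add (add_le_add e1 e2) e3
        _ = 11 := by norm_num

end Pool.Agent.Lib.H18R
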