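import Pool.Agent.Lib.Goldbach.Defs

/-!
# Project H18R (MP_443e5f_co): small vertices under Goldbach's conjecture

Copies of proofs of `H18P/P4.lean` and `H18P/P5.lean`, in order to have fewer imports.
-/

open Finset Pool.Agent.Goldbach

namespace Pool.Agent.Lib.H18R

/-- Descent: under Goldbach's conjecture every vertex is connected to `2`, `4` or `6`. -/
theorem descent (hG : ∀ u : ℕ, Even u → 8 ≤ u → ∃ p q : ℕ, p.Prime ∧ q.Prime ∧ p ≠ q ∧ p + q = u)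
    {V S : Set ℕ} {n : ℕ} (hV : ∀ a ∈ V, Even a ∧ a ≤ 2 * n) (hV2 : ∀ x ∈ Finset.Icc 1 n, 2 * x ∈ V)
    (hS : ∀ m, m.Prime → Odd m → m < 2 * n → m ∈ S) : ∀ u : ℕ, ∀ hu : u ∈ V, 0 < u →
    ∃ w, ∃ hw : w ∈ V, (w = 2 ∨ w = 4 ∨ w = 6) ∧ (halfGraph V S).edist ⟨u, hu⟩ ⟨w, hw⟩ ≤ (u : ℕ∞) := by
  intro u
  induction u using Nat.strong_induction_on with
  | _ u ih =>
    intro hu hu0
    obtain ⟨he, hun⟩ := hV u hu
    by_cases h8 : 8 ≤ u
    · obtain ⟨p, q, hp, hq, hpq, hsum⟩ := hG u he h8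
      wlog hlt : p < q generalizing p q
      · exact this q p hq hp hpq.symm (by omega) (by omega)
      have hp2 : p ≠ 2 := by
        rintro rfl
        have h1 : Even q := by
          obtain ⟨k, hk⟩ := he
          exact ⟨k - 1, by omega⟩
        have := (Nat.Prime.even_iff hq).1 h1
        omega
      have hq2 : q ≠ 2 := by
        have := hp.two_le
        omega
      have hpo := hp.odd_of_ne_two hp2
      have hqo := hq.odd_of_ne_two hq2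
      obtain ⟨k, hk⟩ := hpo
      obtain ⟨l, hl⟩ := hqo
      have hpp := hp.pos
      have hvmem : q - p ∈ V := by
        have : q - p = 2 * (l - k) := by omega
        rw [this]
        exact hV2 _ (mem_Icc.2 ⟨by omega, by omega⟩)
      obtain ⟨w, hw, hw1, hw2⟩ := ih (q - p) (by omega) hvmem (by omega)
      refine ⟨w, hw, hw1, ?_⟩
      have hadj : (halfGraph V S).Adj ⟨u, hu⟩ ⟨q - p, hvmem⟩ := by
        rw [halfGraph_adj_iff (x := k + l + 1) (y := l - k) (by simp only; omega) (by simp only; omega)]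
        refine ⟨by omega, ?_, ?_⟩
        · have : k + l + 1 + (l - k) = q := by omega
          rw [this]
          exact hS q hq ⟨l, hl⟩ (by omega)
        · have : (((k + l + 1 : ℕ) : ℤ) - ((l - k : ℕ) : ℤ)).natAbs = p := by omega
          rw [this]
          exact hS p hp ⟨k, hk⟩ (by omega)
      have h1 : (halfGraph V S).edist ⟨u, hu⟩ ⟨q - p, hvmem⟩ ≤ 1 := by
        refine (SimpleGraph.edist_le (.cons hadj .nil)).trans ?_
        norm_num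
      calc (halfGraph V S).edist ⟨u, hu⟩ ⟨w, hw⟩ ≤ (halfGraph V S).edist ⟨u, hu⟩ ⟨q - p, hvmem⟩ +
            (halfGraph V S).edist ⟨q - p, hvmem⟩ ⟨w, hw⟩ := SimpleGraph.edist_triangle
        _ ≤ 1 + ((q - p : ℕ) : ℕ∞) := add_le_add h1 hw2
        _ ≤ (u : ℕ∞) := by
            have h2 : 1 + (q - p) ≤ u := by omega
            exact_mod_cast h2
    · refine ⟨u, hu, ?_, by rw [SimpleGraph.edist_self]; exact zero_le⟩
      obtain ⟨k, hk⟩ := he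
      omega

theorem edist_three {V : Type*} (G : SimpleGraph V) (a b c d : V) (i j k : ℕ∞) (h1 : G.edist a b ≤ i)
    (h2 : G.edist b c ≤ j) (h3 : G.edist c d ≤ k) : G.edist a d ≤ i + j + k :=
  calc G.edist a d ≤ G.edist a c + G.edist c d := SimpleGraph.edist_triangle
    _ ≤ (G.edist a b + G.edist b c) + G.edist c d := add_le_add_left SimpleGraph.edist_triangle _
    _ ≤ i + j + k := add_le_add (add_le_add h1 h2) h3

theorem q1_aux (hG : ∀ u : ℕ, Even u → 8 ≤ u → ∃ p q : ℕ, p.Prime ∧ q.Prime ∧ p ≠ q ∧ p + q = u)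
    {V S : Set ℕ} {n : ℕ} (hV : ∀ a ∈ V, Even a ∧ a ≤ 2 * n) (hV2 : ∀ x ∈ Finset.Icc 1 n, 2 * x ∈ V)
    (hS : ∀ m, m.Prime → Odd m → m < 2 * n → m ∈ S) (U : ℕ) (s : ℕ) (hs : s ∈ V) (hs0 : 0 < s)
    (hsU : s ≤ 2 * U)
    (h246 : ∀ w w' : ℕ, ∀ hw : w ∈ V, ∀ hw' : w' ∈ V, (w = 2 ∨ w = 4 ∨ w = 6) → (w' = 2 ∨ w' = 4 ∨ w' = 6) →
      (halfGraph V S).edist ⟨w, hw⟩ ⟨w', hw'⟩ ≤ 6)
    (h0 : ∀ hu : 0 ∈ V, ∃ w, ∃ hw : w ∈ V, (w = 2 ∨ w = 4 ∨ w = 6) ∧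
      (halfGraph V S).edist ⟨0, hu⟩ ⟨w, hw⟩ ≤ 1)
    (hbig : ∀ u : ℕ, ∀ hu : u ∈ V, U ≤ u → (halfGraph V S).edist ⟨u, hu⟩ ⟨s, hs⟩ ≤ 13) :
    ∀ u v : V, (halfGraph V S).edist u v ≤ ((2 * (3 * U + 40) : ℕ) : ℕ∞) := by
  obtain ⟨w', hw', hw1', hw2'⟩ := descent hG hV hV2 hS s hs hs0
  have key : ∀ u : V, (halfGraph V S).edist u ⟨s, hs⟩ ≤ ((3 * U + 40 : ℕ) : ℕ∞) := by
    rintro ⟨u, hu⟩
    rcases Nat.eq_zero_or_pos u with h | h
    · subst h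
      obtain ⟨w, hw, hw1, hw2⟩ := h0 hu
      have h1 := h246 w w' hw hw' hw1 hw1'
      rw [SimpleGraph.edist_comm] at hw2'
      refine (edist_three _ _ _ _ _ _ _ _ hw2 h1 hw2').trans ?_
      have : 1 + 6 + s ≤ 3 * U + 40 := by omega
      exact_mod_cast this
    · by_cases hU : U ≤ u
      · refine (hbig u hu hU).trans ?_
        have : 13 ≤ 3 * U + 40 := by omega
        exact_mod_cast this
      · obtain ⟨w, hw, hw1, hw2⟩ := descent hG hV hV2 hS u hu h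
        have h1 := h246 w w' hw hw' hw1 hw1'
        rw [SimpleGraph.edist_comm] at hw2'
        refine (edist_three _ _ _ _ _ _ _ _ hw2 h1 hw2').trans ?_
        have : u + 6 + s ≤ 3 * U + 40 := by omega
        exact_mod_cast this
  intro u v
  have h1 := key u
  have h2 := key v
  rw [SimpleGraph.edist_comm] at h2
  calc (halfGraph V S).edist u v ≤ (halfGraph V S).edist u ⟨s, hs⟩ + (halfGraph V S).edist ⟨s, hs⟩ v :=
        SimpleGraph.edist_triangle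
    _ ≤ ((3 * U + 40 : ℕ) : ℕ∞) + ((3 * U + 40 : ℕ) : ℕ∞) := add_le_add h1 h2
    _ = ((2 * (3 * U + 40) : ℕ) : ℕ∞) := by push_cast; ring

/-- an edge between small vertices -/
theorem edge {V S : Set ℕ} (x y p q : ℕ) (hx : 2 * x ∈ V) (hy : 2 * y ∈ V) (hxy : y < x) (hp : x + y = p)
    (hq : x - y = q) (hpS : p ∈ S) (hqS : q ∈ S) :
    (halfGraph V S).edist ⟨2 * x, hx⟩ ⟨2 * y, hy⟩ ≤ 1 := by
  have hadj : (halfGraph V S).Adj ⟨2 * x, hx⟩ ⟨2 * y, hy⟩ := by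
    rw [halfGraph_adj_iff (x := x) (y := y) rfl rfl]
    have : ((x : ℤ) - y).natAbs = q := by omega
    rw [this, hp]
    exact ⟨by omega, hpS, hqS⟩
  refine (SimpleGraph.edist_le (.cons hadj .nil)).trans ?_
  norm_num

/-- distances between `2`, `4`, `6` in the near Goldbach graphs -/
theorem small_near {V S : Set ℕ} (h1 : 1 ∈ S) (h3 : 3 ∈ S) (h5 : 5 ∈ S) (a2 : 2 ∈ V) (a4 : 4 ∈ V)
    (a6 : 6 ∈ V) : ∀ w w' : ℕ, ∀ hw : w ∈ V, ∀ hw' : w' ∈ V, (w = 2 ∨ w = 4 ∨ w = 6) →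
      (w' = 2 ∨ w' = 4 ∨ w' = 6) → (halfGraph V S).edist ⟨w, hw⟩ ⟨w', hw'⟩ ≤ 6 := by
  have e42 : (halfGraph V S).edist ⟨4, a4⟩ ⟨2, a2⟩ ≤ 1 := edge 2 1 3 1 a4 a2 (by norm_num) rfl rfl h3 h1
  have e64 : (halfGraph V S).edist ⟨6, a6⟩ ⟨4, a4⟩ ≤ 1 := edge 3 2 5 1 a6 a4 (by norm_num) rfl rfl h5 h1
  have key : ∀ w : ℕ, ∀ hw : w ∈ V, (w = 2 ∨ w = 4 ∨ w = 6) → (halfGraph V S).edist ⟨w, hw⟩ ⟨4, a4⟩ ≤ 3 := by
    rintro w hw (h | h | h)
    · subst h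
      rw [SimpleGraph.edist_comm]
      exact e42.trans (by norm_num)
    · subst h
      rw [SimpleGraph.edist_self]
      exact zero_le
    · subst h
      exact e64.trans (by norm_num)
  intro w w' hw hw' h h'
  have k1 := key w hw h
  have k2 := key w' hw' h'
  rw [SimpleGraph.edist_comm] at k2
  calc (halfGraph V S).edist ⟨w, hw⟩ ⟨w', hw'⟩ ≤ (halfGraph V S).edist ⟨w, hw⟩ ⟨4, a4⟩ +
        (halfGraph V S).edist ⟨4, a4⟩ ⟨w', hw'⟩ := SimpleGraph.edist_triangle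
    _ ≤ 3 + 3 := add_le_add k1 k2
    _ = 6 := by norm_num

/-- distances between `2`, `4`, `6` in the Goldbach graphs -/
theorem small_gold {V S : Set ℕ} (h3 : 3 ∈ S) (h5 : 5 ∈ S) (h7 : 7 ∈ S) (h11 : 11 ∈ S) (a0 : 0 ∈ V)
    (a2 : 2 ∈ V) (a4 : 4 ∈ V) (a6 : 6 ∈ V) (a8 : 8 ∈ V) (a10 : 10 ∈ V) (a14 : 14 ∈ V) :
    (halfGraph V S).edist ⟨0, a0⟩ ⟨6, a6⟩ ≤ 1 ∧
    ∀ w w' : ℕ, ∀ hw : w ∈ V, ∀ hw' : w' ∈ V, (w = 2 ∨ w = 4 ∨ w = 6) →
      (w' = 2 ∨ w' = 4 ∨ w' = 6) → (halfGraph V S).edist ⟨w, hw⟩ ⟨w', hw'⟩ ≤ 6 := by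
  have e82 : (halfGraph V S).edist ⟨8, a8⟩ ⟨2, a2⟩ ≤ 1 := edge 4 1 5 3 a8 a2 (by norm_num) rfl rfl h5 h3
  have e148 : (halfGraph V S).edist ⟨14, a14⟩ ⟨8, a8⟩ ≤ 1 := edge 7 4 11 3 a14 a8 (by norm_num) rfl rfl h11 h3
  have e140 : (halfGraph V S).edist ⟨14, a14⟩ ⟨0, a0⟩ ≤ 1 := edge 7 0 7 7 a14 a0 (by norm_num) rfl rfl h7 h7
  have e104 : (halfGraph V S).edist ⟨10, a10⟩ ⟨4, a4⟩ ≤ 1 := edge 5 2 7 3 a10 a4 (by norm_num) rfl rfl h7 h3
  have e100 : (halfGraph V S).edist ⟨10, a10⟩ ⟨0, a0⟩ ≤ 1 := edge 5 0 5 5 a10 a0 (by norm_num) rfl rfl h5 h5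
  have e60 : (halfGraph V S).edist ⟨6, a6⟩ ⟨0, a0⟩ ≤ 1 := edge 3 0 3 3 a6 a0 (by norm_num) rfl rfl h3 h3
  refine ⟨by rw [SimpleGraph.edist_comm]; exact e60, ?_⟩
  have key : ∀ w : ℕ, ∀ hw : w ∈ V, (w = 2 ∨ w = 4 ∨ w = 6) → (halfGraph V S).edist ⟨w, hw⟩ ⟨0, a0⟩ ≤ 3 := by
    rintro w hw (h | h | h)
    · subst h
      rw [SimpleGraph.edist_comm] at e82 e148
      have := edist_three _ _ _ _ _ _ _ _ e82 e148 e140
      refine this.trans ?_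
      norm_num
    · subst h
      rw [SimpleGraph.edist_comm] at e104
      have h1 : (halfGraph V S).edist ⟨4, a4⟩ ⟨0, a0⟩ ≤ 1 + 1 :=
        SimpleGraph.edist_triangle.trans (add_le_add e104 e100)
      refine h1.trans ?_
      norm_num
    · subst h
      exact e60.trans (by norm_num)
  intro w w' hw hw' h h'
  have k1 := key w hw h
  have k2 := key w' hw' h'
  rw [SimpleGraph.edist_comm] at k2
  calc (halfGraph V S).edist ⟨w, hw⟩ ⟨w', hw'⟩ ≤ (halfGraph V S).edist ⟨w, hw⟩ ⟨0, a0⟩ +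
        (halfGraph V S).edist ⟨0, a0⟩ ⟨w', hw'⟩ := SimpleGraph.edist_triangle
    _ ≤ 3 + 3 := add_le_add k1 k2
    _ = 6 := by norm_num

end Pool.Agent.Lib.H18R
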