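import Pool.Agent.Lib.H18R.GL
import Pool.Agent.Lib.H18R.OF
import Pool.Agent.Lib.H18R.FX
import Pool.Agent.Lib.H18R.SM

/-!
# Project H18R (MP_443e5f_co): vertices which are rich at some scale are pairwise at distance at most 13
-/

open Finset

namespace Pool.Agent.Lib.H18R

open Pool.Agent.Goldbach Pool.Agent.Lib.H96G
open Pool.Agent.Lib.GoldbachGraph (hadj hdeg)
open Pool.Agent.Lib.H96G.Tr (finite_of_le deg_le le_deg)

theorem fn_thr (b b' : ℝ) (hbb : b < b') (hb' : b' < 1) : ∃ n0 : ℕ, 1 ≤ n0 ∧ ∀ m : ℕ, n0 ≤ m →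
    3 + 2 * (m : ℝ) ^ (1 - b') ≤ ((2 * m : ℕ) : ℝ) ^ (1 - b) ∧ (m : ℝ) ^ (1 - b') ≤ (m : ℝ) ^ (1 - b) := by
  have h1 := (tendsto_rpow_atTop (show 0 < b' - b by linarith)).eventually_ge_atTop 8
  obtain ⟨n0, hn0⟩ := Filter.eventually_atTop.1 (tendsto_natCast_atTop_atTop.eventually h1)
  refine ⟨max n0 1, le_max_right _ _, fun m hm => ?_⟩
  have e1 := hn0 m (by omega)
  have hm1 : (1 : ℝ) ≤ m := by exact_mod_cast (by omega : 1 ≤ m)
  have hm0 : (0 : ℝ) < m := by linarith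
  have k1 : (m : ℝ) ^ (1 - b) = (m : ℝ) ^ (1 - b') * (m : ℝ) ^ (b' - b) := by
    rw [← Real.rpow_add hm0]
    congr 1
    ring
  have k3 : (1 : ℝ) ≤ (m : ℝ) ^ (1 - b') := Real.one_le_rpow hm1 (by linarith)
  have k2 : 8 * (m : ℝ) ^ (1 - b') ≤ (m : ℝ) ^ (1 - b) := by
    rw [k1]
    nlinarith
  have h2m : ((2 * m : ℕ) : ℝ) = 2 * m := by push_cast; ring
  rw [h2m]
  have k4 : (m : ℝ) ^ (1 - b) ≤ (2 * m) ^ (1 - b) :=
    Real.rpow_le_rpow hm0.le (by linarith) (by linarith)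
  exact ⟨by linarith, by linarith⟩

/-- Rich vertices have large degree at some scale. -/
theorem fn_scale {V S : ℕ → Set ℕ} (hF : Fam V S) (b b' : ℝ) (hbb : b < b') (hb' : b' < 1) :
    ∃ n0 : ℕ, ∀ M N n : ℕ, n0 ≤ N → 2 * M ≤ N → N ≤ n → ∀ u : V n,
      Rich V (fun n => halfGraph (V n) (S n)) b N n u → ∃ m : ℕ, M ≤ m ∧ m ≤ n ∧ ∃ h : (u : ℕ) ∈ V m,
        (m : ℝ) ^ (1 - b') ≤ (((halfGraph (V m) (S m)).neighborSet ⟨u, h⟩).ncard : ℝ) := by
  obtain ⟨n1, hn1, hthr⟩ := fn_thr b b' hbb hb'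
  refine ⟨2 * n1, fun M N n hN hM hNn u hu => ?_⟩
  obtain ⟨u, hun⟩ := u
  rcases hu with ⟨m, hm0, hmn, hm, hd⟩ | ⟨hu0, hr⟩
  · exact ⟨m, by omega, hmn, hm, (hthr m (by omega)).2.trans hd⟩
  · obtain ⟨⟨x, hx'⟩, hbn⟩ := hF.hV n u hun
    have hux : u = 2 * x := by omega
    subst hux
    have hu0' : N ≤ 2 * x := hu0
    have hx1 : x ∈ Icc 1 x := mem_Icc.2 ⟨by omega, le_rfl⟩
    replace hr : ((2 * x : ℕ) : ℝ) ^ (1 - b) ≤ reps (2 * x) := hr
    refine ⟨x, by omega, by omega, hF.hV2 x x hx1, ?_⟩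
    have h1 : (reps (2 * x) : ℝ) ≤ 2 * (((Icc 1 (x - 1)).filter (fun Y => hadj x Y)).card : ℝ) + 3 := by
      exact_mod_cast reps_le x
    have h2 : (((Icc 1 (x - 1)).filter (fun Y => hadj x Y)).card : ℝ) ≤ hdeg x x := by
      have : ((Icc 1 (x - 1)).filter (fun Y => hadj x Y)).card ≤ hdeg x x := by
        unfold hdeg
        apply card_le_card
        apply filter_subset_filter
        exact Icc_subset_Icc_right (Nat.sub_le _ _)
      exact_mod_cast this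
    have h3 : (hdeg x x : ℝ) ≤ (((halfGraph (V x) (S x)).neighborSet ⟨2 * x, hF.hV2 x x hx1⟩).ncard : ℝ) := by
      exact_mod_cast le_deg (hF.hV x) (hF.hV2 x) (hF.hS x) x hx1 (hF.hV2 x x hx1)
    have h4 := (hthr x (by omega)).1
    show (x : ℝ) ^ (1 - b') ≤ (((halfGraph (V x) (S x)).neighborSet ⟨2 * x, hF.hV2 x x hx1⟩).ncard : ℝ)
    linarith

/-- The vertex `0` has many neighbours at every scale. -/
theorem fn_zero {V S : ℕ → Set ℕ} (hF : Fam V S) (e : ℝ) (he : e < 1) : ∃ n0 : ℕ, ∀ m : ℕ, n0 ≤ m →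
    ∀ h : (0 : ℕ) ∈ V m, (m : ℝ) ^ e ≤ (((halfGraph (V m) (S m)).neighborSet ⟨0, h⟩).ncard : ℝ) := by
  have h3 : ∀ᶠ y : ℝ in Filter.atTop, y ^ e * Real.log y * 4 ≤ y ∧ 4 * Real.log (y + 1) ≤ y ∧ 8 * Real.log y ≤ y := by
    have k := (isLittleO_log_rpow_atTop (show 0 < 1 - e by linarith)).def (show (0 : ℝ) < 1 / 4 by norm_num)
    have k2 := (isLittleO_log_rpow_atTop (show (0 : ℝ) < 1 by norm_num)).def (show (0 : ℝ) < 1 / 16 by norm_num)
    filter_upwards [k, k2, Filter.eventually_ge_atTop (16 : ℝ)] with y k k2 hy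
    have hy0 : 0 < y := by linarith
    have hL : 0 ≤ Real.log y := Real.log_nonneg (by linarith)
    rw [Real.norm_of_nonneg hL, Real.norm_of_nonneg (by positivity)] at k k2
    rw [Real.rpow_one] at k2
    refine ⟨?_, ?_, by linarith⟩
    · have k1 : y = y ^ e * y ^ (1 - e) := by
        rw [← Real.rpow_add hy0]
        have : e + (1 - e) = 1 := by ring
        rw [this, Real.rpow_one]
      calc y ^ e * Real.log y * 4 = y ^ e * (Real.log y * 4) := by ring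
        _ ≤ y ^ e * y ^ (1 - e) := mul_le_mul_of_nonneg_left (by linarith) (Real.rpow_nonneg hy0.le _)
        _ = y := k1.symm
    · have h1 : Real.log (y + 1) ≤ Real.log (2 * y) := Real.log_le_log (by linarith) (by linarith)
      rw [Real.log_mul (by norm_num) hy0.ne'] at h1
      have h2 := Real.log_two_lt_d9
      linarith
  obtain ⟨n0, hn0⟩ := Filter.eventually_atTop.1 (tendsto_natCast_atTop_atTop.eventually h3)
  refine ⟨max n0 16, fun m hm h => ?_⟩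
  obtain ⟨e1, e2, e3⟩ := hn0 m (by omega)
  have hm2 : (16 : ℝ) ≤ m := by exact_mod_cast (by omega : 16 ≤ m)
  have hlog : 0 < Real.log m := Real.log_pos (by linarith)
  set J := (Icc 1 m).filter (fun p => p.Prime ∧ Odd p) with hJ
  have hJV : ∀ x ∈ J, 2 * x ∈ V m := fun x hx => hF.hV2 m x (mem_filter.1 hx).1
  have h1 := gl_image (finite_of_le (hF.hV m)) J hJV
  have h2 : (({a : V m | ∃ x ∈ J, (a : ℕ) = 2 * x}).ncard : ℝ) ≤
      (((halfGraph (V m) (S m)).neighborSet ⟨0, h⟩).ncard : ℝ) := by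
    have : Finite (V m) := finite_of_le (hF.hV m)
    have h4 : ({a : V m | ∃ x ∈ J, (a : ℕ) = 2 * x}).ncard ≤ ((halfGraph (V m) (S m)).neighborSet ⟨0, h⟩).ncard := by
      apply Set.ncard_le_ncard _ (Set.toFinite _)
      rintro ⟨a, ha⟩ ⟨x, hx, hax⟩
      simp only at hax
      subst hax
      rw [hJ, mem_filter, mem_Icc] at hx
      rw [SimpleGraph.mem_neighborSet, halfGraph_adj_iff (x := 0) (y := x) rfl rfl]
      have hxS : x ∈ S m := hF.hS m x hx.2.1 hx.2.2 (by omega)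
      refine ⟨by omega, by simpa using hxS, by simpa using hxS⟩
    exact_mod_cast h4
  have h5 : (Nat.primeCounting m : ℝ) ≤ J.card + 1 := by
    have h6 : Nat.primeCounting m ≤ J.card + 1 := by
      rw [Nat.primeCounting, Nat.primeCounting', Nat.count_eq_card_filter_range]
      have h7 : (Finset.range (m + 1)).filter Nat.Prime ⊆ insert 2 J := by
        intro p hp
        rw [mem_filter, mem_range] at hp
        rw [mem_insert, hJ, mem_filter, mem_Icc]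
        by_cases h8 : p = 2
        · exact Or.inl h8
        · have := hp.2.pos
          exact Or.inr ⟨⟨by omega, by omega⟩, hp.2, hp.2.odd_of_ne_two h8⟩
      exact (card_le_card h7).trans (card_insert_le _ _)
    exact_mod_cast h6
  have h6 := Chebyshev.pi_ge m
  rw [div_le_iff₀ hlog] at h6
  have h7 := Real.log_two_gt_d9
  have h8 : (m : ℝ) ^ e ≤ J.card := by
    have h9 : ((m : ℝ) ^ e + 1) * Real.log m ≤ (J.card + 1) * Real.log m := by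
      have h10 : (Nat.primeCounting m : ℝ) * Real.log m ≤ (J.card + 1) * Real.log m :=
        mul_le_mul_of_nonneg_right h5 hlog.le
      nlinarith
    have h10 := le_of_mul_le_mul_right h9 hlog
    linarith
  linarith

/-- **The main part, for a family.** -/
theorem fn_family {V S : ℕ → Set ℕ} (hF : Fam V S) (b d : ℝ) (hb : 0 < b) (hbd : b < d) (hd : d ≤ 1 / 2) (N : ℕ)
    (hT : ∀ n ≥ N, PT (V n) (halfGraph (V n) (S n)) d n) : ∃ n0 : ℕ, 1 ≤ n0 ∧ ∀ N : ℕ, n0 ≤ N → ∀ n : ℕ, N ≤ n →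
    (∀ u v : V n, Rich V (fun n => halfGraph (V n) (S n)) b N n u →
      Rich V (fun n => halfGraph (V n) (S n)) b N n v → (halfGraph (V n) (S n)).edist u v ≤ 13) ∧
    ((∀ m, 0 ∈ V m) → ∀ u v : V n, (u : ℕ) = 0 → Rich V (fun n => halfGraph (V n) (S n)) b N n v →
      (halfGraph (V n) (S n)).edist u v ≤ 7) := by
  obtain ⟨n1, hn1, h1⟩ := gl_pair hF ((b + d) / 2) d (by linarith) (by linarith) N hT
  obtain ⟨n2, h2⟩ := fn_scale hF b ((b + d) / 2) (by linarith) (by linarith)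
  obtain ⟨n3, h3⟩ := fn_zero hF (1 - 2 * d) (by linarith)
  refine ⟨max (max n2 1) (2 * max n1 (max n3 (max N 1))), by omega, fun N' hN' n hn => ⟨?_, ?_⟩⟩
  · intro u v hu hv
    obtain ⟨m, hm1, hm2, hm, hdm⟩ := h2 n1 N' n (by omega) (by omega) hn u hu
    obtain ⟨m', hm1', hm2', hm', hdm'⟩ := h2 n1 N' n (by omega) (by omega) hn v hv
    rcases le_total m m' with h | h
    · have h4 := h1 m m' hm1 h ⟨u, hm⟩ ⟨v, hm'⟩ hdm hdm'
      exact (gl_lift (hF.mV m' n hm2') (hF.mS m' n hm2') ⟨u, hF.mV m m' h hm⟩ ⟨v, hm'⟩).trans h4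
    · have h4 := h1 m' m hm1' h ⟨v, hm'⟩ ⟨u, hm⟩ hdm' hdm
      rw [SimpleGraph.edist_comm]
      exact (gl_lift (hF.mV m n hm2) (hF.mS m n hm2) ⟨v, hF.mV m' m h hm'⟩ ⟨u, hm⟩).trans h4
  · rintro h0 ⟨u, hu⟩ v hu0 hv
    simp only at hu0
    subst hu0
    obtain ⟨m', hm1', hm2', hm', hdm'⟩ := h2 (max n1 (max n3 (max N 1))) N' n (by omega) (by omega) hn v hv
    have h4 := (hT m' (by omega)).2 ⟨0, h0 m'⟩ ⟨v, hm'⟩ (h3 m' (by omega) (h0 m')) ?_
    · exact (gl_lift (hF.mV m' n hm2') (hF.mS m' n hm2') ⟨0, h0 m'⟩ ⟨v, hm'⟩).trans h4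
    · refine le_trans ?_ hdm'
      have hm1 : (1 : ℝ) ≤ m' := by exact_mod_cast (by omega : 1 ≤ m')
      exact Real.rpow_le_rpow_of_exponent_le hm1 (by linarith)

/-- Vertices outside of the fixed thin set, in one graph. -/
theorem fn_off {V S : ℕ → Set ℕ} (hF : Fam V S) {F : Set ℕ} {δ : ℝ} (hδ : 0 < δ) {E : Set ℕ} {N : ℕ} (hN1 : 1 ≤ N)
    (hN2 : ∀ x : ℕ, N ≤ x → 2 * 2 ≤ (x : ℝ) ^ (δ / 2)) (hNF : ∀ x : ℕ, x ∉ F → N ≤ x)
    (hE : ∀ u : ℕ, Even u → u ∉ E → u / 2 ∉ F)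
    (h : ∀ x y : ℕ, x ∉ F → y ∉ F → x ≤ y → (HL 1 y).edist x y ≤ 11 ∧ ((y : ℝ) ≤ (x : ℝ) ^ (1 + δ) →
        (HL 1 y).edist x y ≤ 5 ∧ (x % 2 = y % 2 → (HL 1 y).edist x y ≤ 4) ∧ (OT x y → (HL 1 y).edist x y ≤ 3)))
    (hδ1 : δ ≤ 1) (n : ℕ) : Off E (δ / 2) (halfGraph (V n) (S n)) := by
  -- ordered version
  have key : ∀ x y : ℕ, ∀ hx : 2 * x ∈ V n, ∀ hy : 2 * y ∈ V n, x ∉ F → y ∉ F → x ≤ y →
      (halfGraph (V n) (S n)).edist ⟨2 * x, hx⟩ ⟨2 * y, hy⟩ ≤ 11 ∧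
      (((2 * y : ℕ) : ℝ) ≤ ((2 * x : ℕ) : ℝ) ^ (1 + δ / 2) → (halfGraph (V n) (S n)).edist ⟨2 * x, hx⟩ ⟨2 * y, hy⟩ ≤ 5 ∧
        ((2 * x) % 4 = (2 * y) % 4 → (halfGraph (V n) (S n)).edist ⟨2 * x, hx⟩ ⟨2 * y, hy⟩ ≤ 4) ∧
        ((2 * x) % 4 ≠ (2 * y) % 4 → (3 ∣ 2 * x ↔ ¬ 3 ∣ 2 * y) →
          (halfGraph (V n) (S n)).edist ⟨2 * x, hx⟩ ⟨2 * y, hy⟩ ≤ 3)) := by
    intro x y hx hy hxF hyF hxy
    have hyn : y ≤ n := by
      have := (hF.hV n _ hy).2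
      omega
    have hx1 := hNF x hxF
    have hxI : x ∈ Finset.Icc 1 n := Finset.mem_Icc.2 ⟨by omega, by omega⟩
    have hyI : y ∈ Finset.Icc 1 n := Finset.mem_Icc.2 ⟨by omega, by omega⟩
    obtain ⟨h1, h2⟩ := h x y hxF hyF hxy
    have tr : ∀ k : ℕ, (HL 1 y).edist x y ≤ (k : ℕ∞) → (halfGraph (V n) (S n)).edist ⟨2 * x, hx⟩ ⟨2 * y, hy⟩ ≤ (k : ℕ∞) :=
      fun k hk => E2_edist (lo := 1) (hF.hV2 n) (hF.hS n) hxI hyI ((of_mono hyn x y).trans hk)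
    refine ⟨tr 11 h1, fun h3 => ?_⟩
    have h4 : (y : ℝ) ≤ (x : ℝ) ^ (1 + δ) := by
      have hx0 : (0 : ℝ) < x := by exact_mod_cast (by omega : 0 < x)
      push_cast at h3
      rw [Real.mul_rpow (by norm_num) hx0.le] at h3
      have h5 : (2 : ℝ) ^ (1 + δ / 2) ≤ 2 * 2 := by
        calc (2 : ℝ) ^ (1 + δ / 2) ≤ 2 ^ (2 : ℝ) := Real.rpow_le_rpow_of_exponent_le (by norm_num) (by linarith)
          _ = 2 * 2 := by rw [Real.rpow_two]; norm_num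
      have h6 := hN2 x hx1
      have h7 : (x : ℝ) ^ (1 + δ) = (x : ℝ) ^ (δ / 2) * (x : ℝ) ^ (1 + δ / 2) := by
        rw [← Real.rpow_add hx0]
        congr 1
        ring
      have h8 : 0 ≤ (x : ℝ) ^ (1 + δ / 2) := Real.rpow_nonneg hx0.le _
      have h9 : (2 : ℝ) ^ (1 + δ / 2) * (x : ℝ) ^ (1 + δ / 2) ≤ (x : ℝ) ^ (δ / 2) * (x : ℝ) ^ (1 + δ / 2) :=
        mul_le_mul_of_nonneg_right (h5.trans h6) h8
      have h10 : (0 : ℝ) ≤ y := Nat.cast_nonneg _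
      rw [h7]
      linarith
    obtain ⟨h5, h6, h7⟩ := h2 h4
    refine ⟨tr 5 h5, fun h8 => tr 4 (h6 (by omega)), fun h8 h9 => tr 3 (h7 ?_)⟩
    unfold OT
    omega
  rintro ⟨u, hu⟩ ⟨v, hv⟩ huE hvE
  obtain ⟨⟨x, hx'⟩, -⟩ := hF.hV n u hu
  obtain ⟨⟨y, hy'⟩, -⟩ := hF.hV n v hv
  have hux : u = 2 * x := by omega
  have hvy : v = 2 * y := by omega
  subst hux hvy
  have hxF : x ∉ F := by
    have := hE (2 * x) (even_two_mul x) huE
    rwa [Nat.mul_div_cancel_left _ (by norm_num : 0 < 2)] at this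
  have hyF : y ∉ F := by
    have := hE (2 * y) (even_two_mul y) hvE
    rwa [Nat.mul_div_cancel_left _ (by norm_num : 0 < 2)] at this
  simp only
  rcases le_total x y with hxy | hxy
  · obtain ⟨h1, h2⟩ := key x y hu hv hxF hyF hxy
    exact ⟨h1, fun _ h4 => h2 h4⟩
  · obtain ⟨h1, h2⟩ := key y x hv hu hyF hxF hxy
    rw [SimpleGraph.edist_comm] at h1
    refine ⟨h1, fun h4 _ => ?_⟩
    obtain ⟨h5, h6, h7⟩ := h2 h4
    rw [SimpleGraph.edist_comm] at h5 h6 h7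
    exact ⟨h5, fun h8 => h6 h8.symm, fun h8 h9 => h7 (fun h10 => h8 h10.symm) (by tauto)⟩

/-- **The theorem**, from project T and the degrees of the vertices. -/
theorem rich13 (hT : ∃ δ0 : ℝ, 0 < δ0 ∧ ∃ N : ℕ, ∀ n ≥ N, ∃ δ : ℝ, δ0 ≤ δ ∧ δ ≤ 1 / 2 ∧
      Fin5 n δ (goldbachGraph n) ∧ Fin5 n δ (nearGoldbachGraph n))
    (hO : ∃ D : ℝ, 0 < D ∧ D ≤ 1 / 2 ∧ ∃ N : ℕ, ∀ n : ℕ, N ≤ n → ∃ Γ : Finset ℕ, Γ ⊆ Icc 1 n ∧ Own n D Γ) :
    ∃ δ0 : ℝ, 0 < δ0 ∧ ∀ a b : ℝ, 0 < a → a < b → b < δ0 →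
    ∃ (E : Set ℕ) (n0 x0 : ℕ),
      (∀ x : ℕ, x0 ≤ x → ((E ∩ Set.Icc 0 x).ncard : ℝ) ≤ (x : ℝ) ^ (1 - a)) ∧
      (∀ u : ℕ, Even u → u ∉ E → n0 ≤ u ∧ (u : ℝ) ^ (1 - b) ≤ reps u) ∧
      (∀ n : ℕ, Off E δ0 (goldbachGraph n) ∧ Off E δ0 (nearGoldbachGraph n)) ∧
      (∀ n : ℕ, n0 ≤ n →
        (∀ u v : goldbachVertices n, Rich goldbachVertices goldbachGraph b n0 n u →
          Rich goldbachVertices goldbachGraph b n0 n v → (goldbachGraph n).edist u v ≤ 13) ∧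
        (∀ u v : goldbachVertices n, (u : ℕ) = 0 → Rich goldbachVertices goldbachGraph b n0 n v →
          (goldbachGraph n).edist u v ≤ 7) ∧
        (∀ u v : evenVertices n, Rich evenVertices nearGoldbachGraph b n0 n u →
          Rich evenVertices nearGoldbachGraph b n0 n v → (nearGoldbachGraph n).edist u v ≤ 13)) ∧
      (QuantGoldbach b → ∃ C N U : ℕ, ∀ n : ℕ, N ≤ n →
        (∀ u v : goldbachVertices n, (goldbachGraph n).edist u v ≤ C ∧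
          (U ≤ (u : ℕ) → U ≤ (v : ℕ) → (goldbachGraph n).edist u v ≤ 13)) ∧
        (∀ u v : evenVertices n, (nearGoldbachGraph n).edist u v ≤ C ∧
          (U ≤ (u : ℕ) → U ≤ (v : ℕ) → (nearGoldbachGraph n).edist u v ≤ 13))) := by
  classical
  obtain ⟨dT, hdT, NT, hT⟩ := hT
  obtain ⟨dM, c0, hdM, hdM2, hc0, hM⟩ := Pool.Agent.Lib.H18Q.main_pow
  obtain ⟨dO, hdO, hdO2, hO⟩ := of_main hO
  refine ⟨min (min dT dM) (dO / 2), lt_min (lt_min hdT hdM) (by linarith), fun a b ha hab hb => ?_⟩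
  have hbT : b < dT := hb.trans_le ((min_le_left _ _).trans (min_le_left _ _))
  have hbM : b < dM := hb.trans_le ((min_le_left _ _).trans (min_le_right _ _))
  have hbO : b < dO / 2 := hb.trans_le (min_le_right _ _)
  have hdT2 : dT ≤ 1 / 2 := by
    obtain ⟨δ, h1, h2, -⟩ := hT NT le_rfl
    exact h1.trans h2
  obtain ⟨n1, hn1, h1⟩ := fn_family fam_gold b dT (ha.trans hab) hbT hdT2 (max NT 1) (fun n hn => by
    obtain ⟨δ, k1, -, k3, -⟩ := hT n ((le_max_left _ _).trans hn)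
    exact gl_PT ((le_max_right _ _).trans hn) k1 k3)
  obtain ⟨n2, hn2, h2⟩ := fn_family fam_near b dT (ha.trans hab) hbT hdT2 (max NT 1) (fun n hn => by
    obtain ⟨δ, k1, -, -, k3⟩ := hT n ((le_max_left _ _).trans hn)
    exact gl_PT ((le_max_right _ _).trans hn) k1 k3)
  set n0 := max n1 n2 with hn0
  obtain ⟨E1, x1, hE11, hE12⟩ := fixed_set_pow dM c0 hM hdM2 ((a + b) / 2) b (by linarith) (by linarith) hbM n0
  obtain ⟨n3, hn3⟩ := Filter.eventually_atTop.1 (tendsto_natCast_atTop_atTop.eventually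
    ((tendsto_rpow_atTop (show 0 < dO / 2 by linarith)).eventually_ge_atTop ((2 : ℝ) * 2)))
  obtain ⟨n4, hn4⟩ := Filter.eventually_atTop.1 (tendsto_natCast_atTop_atTop.eventually
    ((tendsto_rpow_atTop (show 0 < (b - a) / 2 by linarith)).eventually_ge_atTop (2 : ℝ)))
  obtain ⟨F, x2, hF1, hF2, hF3⟩ := hO ((a + b) / 2) (by linarith) (max n3 1)
  set E : Set ℕ := E1 ∪ {u | Even u ∧ u / 2 ∈ F} with hE
  have hE2 : ∀ u : ℕ, Even u → u ∉ E → n0 ≤ u ∧ (u : ℝ) ^ (1 - b) ≤ reps u := fun u hu huE =>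
    hE12 u hu (fun h => huE (Or.inl h))
  have hE3 : ∀ u : ℕ, Even u → u ∉ E → u / 2 ∉ F := fun u hu huE h => huE (Or.inr ⟨hu, h⟩)
  set x0 := max (max x1 x2) (max n4 1) with hx0
  have hE1 : ∀ x : ℕ, x0 ≤ x → ((E ∩ Set.Icc 0 x).ncard : ℝ) ≤ (x : ℝ) ^ (1 - a) := by
    intro x hx
    have h3 := hE11 x (by omega)
    have h4 := hF1 x (by omega)
    have hx1 : (1 : ℝ) ≤ x := by exact_mod_cast (by omega : 1 ≤ x)
    have hxR : (0 : ℝ) < x := by linarith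
    have h5 : ({u | Even u ∧ u / 2 ∈ F} ∩ Set.Icc 0 x).ncard ≤ (F ∩ Set.Icc 0 x).ncard := by
      apply Set.ncard_le_ncard_of_injOn (fun u => u / 2)
      · rintro u ⟨⟨-, h2⟩, h3, h4⟩
        exact ⟨h2, Nat.zero_le _, (Nat.div_le_self _ _).trans h4⟩
      · rintro u ⟨⟨⟨k, hk⟩, -⟩, -⟩ v ⟨⟨⟨l, hl⟩, -⟩, -⟩ huv
        simp only at huv
        omega
    have h6 : (E ∩ Set.Icc 0 x).ncard ≤ (E1 ∩ Set.Icc 0 x).ncard + (F ∩ Set.Icc 0 x).ncard := by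
      rw [hE, Set.union_inter_distrib_right]
      exact (Set.ncard_union_le _ _).trans (Nat.add_le_add_left h5 _)
    have h7 : ((E ∩ Set.Icc 0 x).ncard : ℝ) ≤ (E1 ∩ Set.Icc 0 x).ncard + (F ∩ Set.Icc 0 x).ncard := by
      exact_mod_cast h6
    have h8 : (x : ℝ) ^ (1 - a) = (x : ℝ) ^ (1 - (a + b) / 2) * (x : ℝ) ^ ((b - a) / 2) := by
      rw [← Real.rpow_add hxR]
      congr 1
      ring
    have h9 := hn4 x (by omega)
    have h10 : (x : ℝ) ^ (1 - (a + b) / 2) * 2 ≤ (x : ℝ) ^ (1 - (a + b) / 2) * (x : ℝ) ^ ((b - a) / 2) :=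
      mul_le_mul_of_nonneg_left h9 (Real.rpow_nonneg hxR.le _)
    rw [h8]
    linarith
  have hoff : ∀ {V S : ℕ → Set ℕ}, Fam V S → ∀ n, Off E (min (min dT dM) (dO / 2)) (halfGraph (V n) (S n)) := by
    intro V S hVS n u v hu hv
    obtain ⟨k1, k2⟩ := fn_off hVS hdO (le_max_right n3 1) (fun x hx => hn3 x (by omega)) hF2 hE3 hF3 (by linarith) n u v hu hv
    refine ⟨k1, fun k3 k4 => k2 (k3.trans ?_) (k4.trans ?_)⟩
    · have hv1 : (1 : ℝ) ≤ ((v : ℕ) : ℝ) := by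
        have h3 := hF2 _ (hE3 _ (hVS.hV n v v.2).1 hv)
        exact_mod_cast (by omega : 1 ≤ (v : ℕ))
      exact Real.rpow_le_rpow_of_exponent_le hv1 (by linarith [min_le_right (min dT dM) (dO / 2)])
    · have hu1 : (1 : ℝ) ≤ ((u : ℕ) : ℝ) := by
        have h3 := hF2 _ (hE3 _ (hVS.hV n u u.2).1 hu)
        exact_mod_cast (by omega : 1 ≤ (u : ℕ))
      exact Real.rpow_le_rpow_of_exponent_le hu1 (by linarith [min_le_right (min dT dM) (dO / 2)])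
  have hg := fun n hn => h1 n0 (le_max_left _ _) n hn
  have hv := fun n hn => h2 n0 (le_max_right _ _) n hn
  have hz : ∀ m, (0 : ℕ) ∈ goldbachVertices m := fun m => ⟨Even.zero, Nat.zero_le _⟩
  refine ⟨E, n0, x0, hE1, hE2, fun n => ⟨hoff fam_gold n, hoff fam_near n⟩, fun n hn => ⟨fun u v hu hv' => (hg n hn).1 u v hu hv',
    fun u v hu hv' => (hg n hn).2 hz u v hu hv', fun u v hu hv' => (hv n hn).1 u v hu hv'⟩, ?_⟩
  rintro ⟨hG, U0, hU0⟩
  set U := max U0 n0 + 8 with hU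
  refine ⟨2 * (3 * U + 40), 2 * U + 20, U, fun n hn => ⟨?_, ?_⟩⟩
  · have hbig : ∀ u v : goldbachVertices n, U ≤ (u : ℕ) → U ≤ (v : ℕ) → (goldbachGraph n).edist u v ≤ 13 := by
      intro u v hu hv'
      exact (hg n (by omega)).1 u v (Or.inr ⟨by omega, hU0 u (by omega) u.2.1⟩) (Or.inr ⟨by omega, hU0 v (by omega) v.2.1⟩)
    have hV : ∀ a ∈ goldbachVertices n, Even a ∧ a ≤ 2 * n := fun a ha => ha
    have hV2 : ∀ x ∈ Finset.Icc 1 n, 2 * x ∈ goldbachVertices n := fun x hx => by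
      rw [Finset.mem_Icc] at hx
      exact ⟨even_two_mul x, by omega⟩
    have hS : ∀ m, m.Prime → Odd m → m < 2 * n → m ∈ {p | p.Prime ∧ Odd p ∧ p < 2 * n} :=
      fun m h1 h2 h3 => ⟨h1, h2, h3⟩
    have hmem : ∀ k, 2 * k ≤ 2 * n → 2 * k ∈ goldbachVertices n := fun k hk => ⟨even_two_mul k, hk⟩
    have hs : 2 * U ∈ goldbachVertices n := hmem U (by omega)
    obtain ⟨e0, e246⟩ := small_gold (V := goldbachVertices n) (S := {p | p.Prime ∧ Odd p ∧ p < 2 * n})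
      (hS 3 (by norm_num) (by decide) (by omega)) (hS 5 (by norm_num) (by decide) (by omega))
      (hS 7 (by norm_num) (by decide) (by omega)) (hS 11 (by norm_num) (by decide) (by omega))
      (hmem 0 (by omega)) (hmem 1 (by omega)) (hmem 2 (by omega)) (hmem 3 (by omega)) (hmem 4 (by omega))
      (hmem 5 (by omega)) (hmem 7 (by omega))
    have hC := q1_aux hG hV hV2 hS U (2 * U) hs (by omega) le_rfl e246
      (fun hu => ⟨6, hmem 3 (by omega), by omega, e0⟩) (fun u hu hUu => hbig ⟨u, hu⟩ ⟨2 * U, hs⟩ hUu (by simp only; omega))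
    exact fun u v => ⟨hC u v, hbig u v⟩
  · have hbig : ∀ u v : evenVertices n, U ≤ (u : ℕ) → U ≤ (v : ℕ) → (nearGoldbachGraph n).edist u v ≤ 13 := by
      intro u v hu hv'
      exact (hv n (by omega)).1 u v (Or.inr ⟨by omega, hU0 u (by omega) u.2.1⟩) (Or.inr ⟨by omega, hU0 v (by omega) v.2.1⟩)
    have hV : ∀ a ∈ evenVertices n, Even a ∧ a ≤ 2 * n := fun a ha => ⟨ha.1, ha.2.2⟩
    have hV2 : ∀ x ∈ Finset.Icc 1 n, 2 * x ∈ evenVertices n := fun x hx => by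
      rw [Finset.mem_Icc] at hx
      exact ⟨even_two_mul x, by omega, by omega⟩
    have hS : ∀ m, m.Prime → Odd m → m < 2 * n → m ∈ ({1} ∪ {p | p.Prime ∧ Odd p ∧ p < 2 * n} : Set ℕ) :=
      fun m h1 h2 h3 => Or.inr ⟨h1, h2, h3⟩
    have hmem : ∀ k, 1 ≤ k → 2 * k ≤ 2 * n → 2 * k ∈ evenVertices n :=
      fun k hk1 hk => ⟨even_two_mul k, by omega, hk⟩
    have hs : 2 * U ∈ evenVertices n := hmem U (by omega) (by omega)
    have e246 := small_near (V := evenVertices n) (S := ({1} ∪ {p | p.Prime ∧ Odd p ∧ p < 2 * n} : Set ℕ))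
      (Or.inl rfl)
      (hS 3 (by norm_num) (by decide) (by omega)) (hS 5 (by norm_num) (by decide) (by omega))
      (hmem 1 (by omega) (by omega)) (hmem 2 (by omega) (by omega)) (hmem 3 (by omega) (by omega))
    have hC := q1_aux hG hV hV2 hS U (2 * U) hs (by omega) le_rfl e246
      (fun hu => absurd hu.2.1 (by norm_num)) (fun u hu hUu => hbig ⟨u, hu⟩ ⟨2 * U, hs⟩ hUu (by simp only; omega))
    exact fun u v => ⟨hC u v, hbig u v⟩

end Pool.Agent.Lib.H18R
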