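import Pool.Agent.Lib.H96G.D2

/-!
# Project H18R (MP_443e5f_co): generic vertices at distance at most five in the graph below them

Module G of project T (`H96G`) gives a set `Γ` of generic vertices of `[1, n]`, pairwise at distance at most `5` in the
graph on `[1, n]`. The paths only use vertices of lower scales, or generic vertices which can be chosen anywhere; so the
distances are at most `5` also in the graph on `[1, max u v]`.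
-/

open Finset

namespace Pool.Agent.Lib.H18R

open Pool.Agent.Lib.H96G
open Pool.Agent.Lib.GoldbachGraph (hadj hdeg hadj_comm)

theorem og_PZ {n n' Z : ℕ} {s t : ℝ} {Γ : Finset ℕ} (h : PZ n Z s t Γ) (hn : n' ≤ n) :
    PZ n' Z s t (Γ.filter fun x => x ≤ n') where
  sub := by
    intro x hx
    rw [mem_filter] at hx
    have := h.sub hx.1
    rw [mem_Icc] at this ⊢
    exact ⟨this.1, hx.2⟩
  co := by
    refine le_trans ?_ h.co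
    have h1 : (Icc (4 * Z) n' \ (Γ.filter fun x => x ≤ n')).card ≤ (Icc (4 * Z) n \ Γ).card := by
      apply card_le_card
      intro x hx
      rw [mem_sdiff, mem_filter, mem_Icc] at hx
      rw [mem_sdiff, mem_Icc]
      exact ⟨⟨hx.1.1, hx.1.2.trans hn⟩, fun h2 => hx.2 ⟨h2, hx.1.2⟩⟩
    exact_mod_cast h1
  al := fun u hu => h.al u (mem_filter.1 hu).1
  be := by
    intro u hu
    refine le_trans ?_ (h.be u (mem_filter.1 hu).1)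
    have h1 : (far Z u (Icc (4 * Z) n')).card ≤ (far Z u (Icc (4 * Z) n)).card := by
      apply card_le_card
      intro x hx
      simp only [far, mem_filter] at hx ⊢
      exact ⟨Icc_subset_Icc_right hn hx.1, hx.2⟩
    exact_mod_cast h1
  ga := fun u hu h3 => h.ga u (mem_filter.1 hu).1 h3

/-- Distances between generic vertices in the graph below them. -/
theorem og_dist {lo n Z0 Z1 Z2 : ℕ} (hlo : lo ≤ 1) {s t : ℝ} {Γ0 Γ1 Γ2 : Finset ℕ}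
    (h : Tri n Z0 Z1 Z2 s t Γ0 Γ1 Γ2) {u v n' : ℕ} (hu : u ∈ Γ0 ∩ Γ1 ∩ Γ2) (hv : v ∈ Γ0 ∩ Γ1 ∩ Γ2)
    (hu' : u ≤ n') (hv' : v ≤ n') (h1 : n' ≤ n) (h2 : 100 * Z2 ≤ n') (h3 : 100 ≤ n') (h4 : 20 * s ≤ n') :
    (HL lo n').edist u v ≤ 5 ∧ (u % 2 = v % 2 → (HL lo n').edist u v ≤ 4) ∧
      (OT u v → (HL lo n').edist u v ≤ 3) := by
  have hT : Tri n' Z0 Z1 Z2 s t (Γ0.filter fun x => x ≤ n') (Γ1.filter fun x => x ≤ n') (Γ2.filter fun x => x ≤ n') :=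
    ⟨og_PZ h.P0 h1, og_PZ h.P1 h1, og_PZ h.P2 h1, h.h01, h.h12, h2, h3, h4, h.hst⟩
  rw [mem_inter, mem_inter] at hu hv
  exact C6 hlo hT (mem_filter.2 ⟨hu.1.1, hu'⟩) (mem_filter.2 ⟨hu.1.2, hu'⟩) (mem_filter.2 ⟨hu.2, hu'⟩)
    (mem_filter.2 ⟨hv.1.1, hv'⟩) (mem_filter.2 ⟨hv.1.2, hv'⟩) (mem_filter.2 ⟨hv.2, hv'⟩)

/-- The vertices outside of `Γ0 ∩ Γ1 ∩ Γ2`. Proof. Such a `u ∈ Icc 1 n` is `< 4 Z2`, or in one of the sets
`Icc (4 Z_i) n \ Γ_i` (fields `co`; `Z0 ≤ Z1 ≤ Z2`). -/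
theorem og_co {n Z0 Z1 Z2 : ℕ} {s t : ℝ} {Γ0 Γ1 Γ2 : Finset ℕ} (h : Tri n Z0 Z1 Z2 s t Γ0 Γ1 Γ2) :
    ((Icc 1 n \ (Γ0 ∩ Γ1 ∩ Γ2)).card : ℝ) ≤ 4 * Z2 + 3 * s := by
  have hsub : Icc 1 n \ (Γ0 ∩ Γ1 ∩ Γ2) ⊆ range (4 * Z2) ∪ ((Icc (4 * Z0) n \ Γ0) ∪
      ((Icc (4 * Z1) n \ Γ1) ∪ (Icc (4 * Z2) n \ Γ2))) := by
    intro u hu
    rw [mem_sdiff, mem_Icc, mem_inter, mem_inter] at hu
    obtain ⟨⟨h1, h2⟩, h3⟩ := hu
    have h01 := h.h01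
    have h12 := h.h12
    simp only [mem_union, mem_range, mem_sdiff, mem_Icc]
    by_cases h4 : u < 4 * Z2
    · exact Or.inl h4
    · right
      by_cases h5 : u ∈ Γ0
      · by_cases h6 : u ∈ Γ1
        · refine Or.inr (Or.inr ⟨by omega, fun h7 => h3 ⟨⟨h5, h6⟩, h7⟩⟩)
        · exact Or.inr (Or.inl ⟨by omega, h6⟩)
      · exact Or.inl ⟨by omega, h5⟩
  have h1 := card_le_card hsub
  have h2 := card_union_le (range (4 * Z2)) ((Icc (4 * Z0) n \ Γ0) ∪ ((Icc (4 * Z1) n \ Γ1) ∪ (Icc (4 * Z2) n \ Γ2)))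
  have h3 := card_union_le (Icc (4 * Z0) n \ Γ0) ((Icc (4 * Z1) n \ Γ1) ∪ (Icc (4 * Z2) n \ Γ2))
  have h4 := card_union_le (Icc (4 * Z1) n \ Γ1) (Icc (4 * Z2) n \ Γ2)
  rw [card_range] at h2
  have h5 : (Icc 1 n \ (Γ0 ∩ Γ1 ∩ Γ2)).card ≤ 4 * Z2 + ((Icc (4 * Z0) n \ Γ0).card + ((Icc (4 * Z1) n \ Γ1).card +
      (Icc (4 * Z2) n \ Γ2).card)) := by omega
  have h6 : ((Icc 1 n \ (Γ0 ∩ Γ1 ∩ Γ2)).card : ℝ) ≤ 4 * Z2 + (((Icc (4 * Z0) n \ Γ0).card : ℝ) + (((Icc (4 * Z1) n \ Γ1).card : ℝ) +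
      ((Icc (4 * Z2) n \ Γ2).card : ℝ))) := by exact_mod_cast h5
  linarith [h.P0.co, h.P1.co, h.P2.co]

/-- Generic vertices of `[1, n]`, with distances in the graphs below them. -/
def Own (n : ℕ) (D : ℝ) (Γ : Finset ℕ) : Prop :=
  ((Icc 1 n \ Γ).card : ℝ) ≤ (n : ℝ) ^ (1 - D) ∧
    ∀ u ∈ Γ, ∀ v ∈ Γ, ∀ n' : ℕ, u ≤ n' → v ≤ n' → n' ≤ n → (HL 1 n').edist u v ≤ 5 ∧
      (u % 2 = v % 2 → (HL 1 n').edist u v ≤ 4) ∧ (OT u v → (HL 1 n').edist u v ≤ 3)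

/-- **OG.** -/
theorem og {n M : ℕ} {L : ℕ → ℤ → ℝ} {c B b : ℝ} (hN : Nm n b) (h : GIn n M L c B b) :
    ∃ Γ : Finset ℕ, Γ ⊆ Icc 1 n ∧ Own n (B / 10) Γ := by
  have hb := h.b_pos
  have hbB := h.hb
  have hBc := h.hB
  have hc := h.hc
  obtain ⟨Z0, Z1, Z2, Γ0, Γ1, Γ2, hM0, hlo0, hhi0, hZ2, hT⟩ := D2 hN h
  set W := 100 * Z2 + 100 + ⌈20 * (n : ℝ) ^ (1 - c / 2 + 3 * B)⌉₊ with hW
  have hs1 : (n : ℝ) ^ (1 - c / 2 + 3 * B) ≤ (n : ℝ) ^ (1 - B) := hN.mono (by linarith)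
  have hZ2R : (Z2 : ℝ) = 64 * Z0 := by rw [hZ2]; push_cast; ring
  have hone : (1 : ℝ) ≤ (n : ℝ) ^ (1 - B) := by
    have := hN.mono (x := 0) (y := 1 - B) (by linarith)
    rwa [Real.rpow_zero] at this
  have hp := hN.ppos (1 - c / 2 + 3 * B)
  have hceil : (⌈20 * (n : ℝ) ^ (1 - c / 2 + 3 * B)⌉₊ : ℝ) ≤ 20 * (n : ℝ) ^ (1 - c / 2 + 3 * B) + 1 :=
    (Nat.ceil_lt_add_one (by positivity)).le
  have hceil2 : 20 * (n : ℝ) ^ (1 - c / 2 + 3 * B) ≤ (⌈20 * (n : ℝ) ^ (1 - c / 2 + 3 * B)⌉₊ : ℝ) := Nat.le_ceil _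
  have hWR : (W : ℝ) ≤ 13000 * (n : ℝ) ^ (1 - B) := by
    rw [hW]
    push_cast
    linarith
  refine ⟨(Γ0 ∩ Γ1 ∩ Γ2).filter (fun x => W ≤ x), ?_, ?_, ?_⟩
  · intro u hu
    rw [mem_filter, mem_inter, mem_inter] at hu
    have h1 := hT.P0.sub hu.1.1.1
    rw [mem_Icc] at h1 ⊢
    omega
  · have h1 : (Icc 1 n \ (Γ0 ∩ Γ1 ∩ Γ2).filter (fun x => W ≤ x)) ⊆ (Icc 1 n \ (Γ0 ∩ Γ1 ∩ Γ2)) ∪ range W := by
      intro u hu
      rw [mem_sdiff, mem_filter, not_and] at hu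
      rw [mem_union, mem_sdiff, mem_range]
      by_cases h2 : u ∈ Γ0 ∩ Γ1 ∩ Γ2
      · have := hu.2 h2
        right
        omega
      · exact Or.inl ⟨hu.1, h2⟩
    have h2 := (card_le_card h1).trans (card_union_le _ _)
    rw [card_range] at h2
    have h3 : ((Icc 1 n \ (Γ0 ∩ Γ1 ∩ Γ2).filter (fun x => W ≤ x)).card : ℝ) ≤
        ((Icc 1 n \ (Γ0 ∩ Γ1 ∩ Γ2)).card : ℝ) + W := by exact_mod_cast h2
    have h4 := og_co hT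
    have h5 : (20000 : ℝ) * (n : ℝ) ^ (1 - B) ≤ (n : ℝ) ^ (1 - B / 10) := hN.cst (by norm_num) (by linarith)
    linarith
  · intro u hu v hv n' hu' hv' hn'
    rw [mem_filter] at hu hv
    refine og_dist le_rfl hT hu.1 hv.1 hu' hv' hn' (by omega) (by omega) ?_
    have h1 : (⌈20 * (n : ℝ) ^ (1 - c / 2 + 3 * B)⌉₊ : ℝ) ≤ n' := by
      have : ⌈20 * (n : ℝ) ^ (1 - c / 2 + 3 * B)⌉₊ ≤ n' := by omega
      exact_mod_cast this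
    linarith

end Pool.Agent.Lib.H18R
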